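import Mathlib

set_option autoImplicit false

/-!
Basic toolkit for recursively enumerable predicates: primitive recursive stage approximations,
closure properties and uniformization.
-/

namespace Pool.Agent.Lib.MP_f26228_lc

open Nat.Partrec (Code)
open Nat.Partrec.Code Encodable

section RE

variable {α β γ : Type} [Primcodable α] [Primcodable β] [Primcodable γ]

/-- an r.e. predicate is the monotone union of primitive recursive stages -/
theorem re_stage {p : α → Prop} (hp : REPred p) :
    ∃ R : α → ℕ → Bool, Primrec₂ R ∧ (∀ a s t, s ≤ t → R a s = true → R a t = true) ∧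
      ∀ a, p a ↔ ∃ s, R a s = true := by
  obtain ⟨c, hc⟩ := Code.exists_code.1 hp
  refine ⟨fun a s => (evaln s c (encode a)).isSome, ?_, ?_, ?_⟩
  · exact Primrec.option_isSome.comp
      (primrec_evaln.comp ((Primrec.snd.pair (Primrec.const c)).pair
        (Primrec.encode.comp Primrec.fst)))
  · intro a s t hst h
    obtain ⟨x, hx⟩ := Option.isSome_iff_exists.1 h
    exact Option.isSome_iff_exists.2 ⟨x, evaln_mono hst hx⟩
  · intro a
    have h1 : p a ↔ (eval c (encode a)).Dom := by
      rw [hc]; simp [Part.assert]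
    rw [h1, Part.dom_iff_mem]
    constructor
    · rintro ⟨x, hx⟩
      obtain ⟨k, hk⟩ := evaln_complete.1 hx
      exact ⟨k, Option.isSome_iff_exists.2 ⟨x, hk⟩⟩
    · rintro ⟨s, hs⟩
      obtain ⟨x, hx⟩ := Option.isSome_iff_exists.1 hs
      exact ⟨x, evaln_complete.2 ⟨s, hx⟩⟩

theorem re_of_exists {p : α → Prop} {R : α → ℕ → Bool} (hR : Computable₂ R)
    (h : ∀ a, p a ↔ ∃ s, R a s = true) : REPred p := by
  have h1 : Partrec (fun a => Nat.rfind (fun s => (Part.some (R a s) : Part Bool))) :=
    Partrec.rfind hR.partrec₂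
  refine h1.dom_re.of_eq fun a => ?_
  rw [h a, Nat.rfind_dom]
  constructor
  · rintro ⟨n, hn, -⟩
    exact ⟨n, by simpa using hn⟩
  · rintro ⟨n, hn⟩
    exact ⟨n, by simpa using hn, fun _ => trivial⟩

theorem re_comp {p : β → Prop} (hp : REPred p) {f : α → β} (hf : Computable f) :
    REPred (fun a => p (f a)) := by
  unfold REPred at *
  exact hp.comp hf

theorem re_and {p q : α → Prop} (hp : REPred p) (hq : REPred q) :
    REPred (fun a => p a ∧ q a) := by
  obtain ⟨R, hR, mR, eR⟩ := re_stage hp
  obtain ⟨S, hS, mS, eS⟩ := re_stage hq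
  refine re_of_exists (R := fun a s => R a s && S a s)
    (Primrec.and.comp hR hS).to_comp fun a => ?_
  rw [eR, eS]
  constructor
  · rintro ⟨⟨s, hs⟩, t, ht⟩
    exact ⟨max s t, by simp [mR a s _ (le_max_left _ _) hs, mS a t _ (le_max_right _ _) ht]⟩
  · rintro ⟨s, hs⟩
    simp only [Bool.and_eq_true] at hs
    exact ⟨⟨s, hs.1⟩, s, hs.2⟩

theorem re_or {p q : α → Prop} (hp : REPred p) (hq : REPred q) :
    REPred (fun a => p a ∨ q a) := by
  obtain ⟨R, hR, mR, eR⟩ := re_stage hp
  obtain ⟨S, hS, mS, eS⟩ := re_stage hq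
  refine re_of_exists (R := fun a s => R a s || S a s)
    (Primrec.or.comp hR hS).to_comp fun a => ?_
  rw [eR, eS]
  constructor
  · rintro (⟨s, hs⟩ | ⟨s, hs⟩)
    · exact ⟨s, by simp [hs]⟩
    · exact ⟨s, by simp [hs]⟩
  · rintro ⟨s, hs⟩
    simp only [Bool.or_eq_true] at hs
    rcases hs with h | h
    · exact Or.inl ⟨s, h⟩
    · exact Or.inr ⟨s, h⟩

theorem re_exists {p : α → β → Prop} (hp : REPred (fun x : α × β => p x.1 x.2)) :
    REPred (fun a => ∃ b, p a b) := by
  obtain ⟨R, hR, -, eR⟩ := re_stage hp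
  refine re_of_exists (R := fun a s =>
    ((decode (α := β) s.unpair.2).map (fun b => R (a, b) s.unpair.1)).getD false) ?_ fun a => ?_
  · apply Primrec.to_comp
    exact Primrec.option_getD.comp
      (Primrec.option_map (Primrec.decode.comp (Primrec.snd.comp (Primrec.unpair.comp Primrec.snd)))
        (hR.comp ((Primrec.fst.comp Primrec.fst).pair Primrec.snd)
          (Primrec.fst.comp (Primrec.unpair.comp (Primrec.snd.comp Primrec.fst)))).to₂)
      (Primrec.const false)
  · constructor
    · rintro ⟨b, hb⟩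
      obtain ⟨s, hs⟩ := (eR (a, b)).1 hb
      exact ⟨Nat.pair s (encode b), by simp [hs]⟩
    · rintro ⟨s, hs⟩
      cases hd : decode (α := β) s.unpair.2 with
      | none => simp [hd] at hs
      | some b =>
        simp only [hd, Option.map_some, Option.getD_some] at hs
        exact ⟨b, (eR (a, b)).2 ⟨_, hs⟩⟩

theorem re_forall_mem {p : α → β → Prop} (hp : REPred (fun x : α × β => p x.1 x.2)) :
    REPred (fun x : α × List β => ∀ b ∈ x.2, p x.1 b) := by
  obtain ⟨R, hR, mR, eR⟩ := re_stage hp
  refine re_of_exists (R := fun x s =>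
    x.2.foldl (fun acc b => acc && R (x.1, b) s) true) ?_ fun x => ?_
  · apply Primrec.to_comp
    refine Primrec.list_foldl (f := fun x : (α × List β) × ℕ => x.1.2)
      (g := fun _ => true)
      (h := fun x (y : Bool × β) => y.1 && R (x.1.1, y.2) x.2)
      (Primrec.snd.comp Primrec.fst) (Primrec.const true) ?_
    refine Primrec.and.comp (Primrec.fst.comp Primrec.snd) ?_
    exact hR.comp ((Primrec.fst.comp (Primrec.fst.comp Primrec.fst)).pair
      (Primrec.snd.comp Primrec.snd)) (Primrec.snd.comp Primrec.fst)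
  · obtain ⟨a, l⟩ := x
    have key : ∀ (l : List β) (acc : Bool) s,
        l.foldl (fun acc b => acc && R (a, b) s) acc = true ↔
          (acc = true ∧ ∀ b ∈ l, R (a, b) s = true) := by
      intro l
      induction l with
      | nil => simp
      | cons b l ih => intro acc s; rw [List.foldl_cons, ih]; simp [and_assoc]
    simp only
    simp_rw [key]
    constructor
    · intro h
      induction l with
      | nil => exact ⟨0, by simp⟩
      | cons b l ih =>
        obtain ⟨s, -, hs⟩ := ih (fun b' hb' => h b' (List.mem_cons_of_mem _ hb'))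
        obtain ⟨t, ht⟩ := (eR (a, b)).1 (h b List.mem_cons_self)
        refine ⟨max s t, trivial, fun b' hb' => ?_⟩
        rcases List.mem_cons.1 hb' with rfl | hb'
        · exact mR _ t _ (le_max_right _ _) ht
        · exact mR _ s _ (le_max_left _ _) (hs b' hb')
    · rintro ⟨s, -, hs⟩ b hb
      exact (eR (a, b)).2 ⟨s, hs b hb⟩

theorem re_forall_lt {p : α → ℕ → Prop} (hp : REPred (fun x : α × ℕ => p x.1 x.2)) :
    REPred (fun x : α × ℕ => ∀ i < x.2, p x.1 i) := by
  have h := re_comp (re_forall_mem hp)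
    (f := fun x : α × ℕ => (x.1, List.range x.2))
    (Primrec.to_comp (Primrec.fst.pair (Primrec.list_range.comp Primrec.snd)))
  refine h.of_eq fun x => ?_
  simp

theorem re_of_primrec {p : α → Prop} [DecidablePred p] (hp : PrimrecPred p) : REPred p :=
  hp.computablePred.to_re

/-- uniformization of r.e. relations -/
theorem re_unif {p : α → β → Prop} (hp : REPred (fun x : α × β => p x.1 x.2)) :
    ∃ g : α →. β, Partrec g ∧ (∀ a b, b ∈ g a → p a b) ∧ ∀ a, (∃ b, p a b) → (g a).Dom := by
  obtain ⟨R, hR, -, eR⟩ := re_stage hp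
  let f : α → ℕ → Option β := fun a s =>
    (decode (α := β) s.unpair.2).bind (fun b => if R (a, b) s.unpair.1 = true then some b else none)
  have hf : Primrec₂ f := by
    refine Primrec.option_bind
      (Primrec.decode.comp (Primrec.snd.comp (Primrec.unpair.comp Primrec.snd))) ?_
    refine Primrec.ite (Primrec.primrecPred (by simpa using (hR.comp
      ((Primrec.fst.comp Primrec.fst).pair Primrec.snd)
          (Primrec.fst.comp (Primrec.unpair.comp (Primrec.snd.comp Primrec.fst)))))) ?_ ?_
    · exact Primrec.option_some.comp Primrec.snd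
    · exact Primrec.const none
  refine ⟨fun a => Nat.rfindOpt (f a), Partrec.rfindOpt hf.to_comp, ?_, ?_⟩
  · intro a b hb
    obtain ⟨n, hn⟩ := Nat.rfindOpt_spec hb
    simp only [f, Option.mem_def, Option.bind_eq_some_iff] at hn
    obtain ⟨b', -, hb'⟩ := hn
    split_ifs at hb' with h
    · cases hb'; exact (eR (a, b)).2 ⟨_, h⟩
  · rintro a ⟨b, hb⟩
    rw [Nat.rfindOpt_dom]
    obtain ⟨s, hs⟩ := (eR (a, b)).1 hb
    exact ⟨Nat.pair s (encode b), b, by simp [f, hs]⟩

end RE

end Pool.Agent.Lib.MP_f26228_lc
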