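import Pool.Agent.Lib.MP_f26228_lc.RE

set_option autoImplicit false

/-!
Bushy-tree largeness. `Big k X σ`: there is a finite tree above `σ` all of whose leaves lie in `X`
and in which each non-leaf `τ` has at least `k * 2 ^ |τ|` immediate successors.
-/

namespace Pool.Agent.Lib.MP_f26228_lc

open Encodable

inductive Big (k : ℕ) (X : List ℕ → Prop) : List ℕ → Prop
  | leaf {σ : List ℕ} : X σ → Big k X σ
  | node {σ : List ℕ} (F : Finset ℕ) : k * 2 ^ σ.length ≤ F.card →
      (∀ a ∈ F, Big k X (σ ++ [a])) → Big k X σ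

namespace Big

theorem mono_set {k : ℕ} {X Y : List ℕ → Prop} (h : ∀ ρ, X ρ → Y ρ) {σ : List ℕ}
    (hb : Big k X σ) : Big k Y σ := by
  induction hb with
  | leaf hx => exact .leaf (h _ hx)
  | node F hF _ ih => exact .node F hF ih

theorem mono_k {k k' : ℕ} (hk : k ≤ k') {X : List ℕ → Prop} {σ : List ℕ}
    (hb : Big k' X σ) : Big k X σ := by
  induction hb with
  | leaf hx => exact .leaf hx
  | node F hF _ ih => exact .node F (le_trans (Nat.mul_le_mul_right _ hk) hF) ih

theorem trans {k : ℕ} {X Y : List ℕ → Prop} {σ : List ℕ} (hb : Big k X σ)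
    (h : ∀ τ, σ <+: τ → X τ → Big k Y τ) : Big k Y σ := by
  induction hb with
  | leaf hx => exact h _ (List.prefix_refl _) hx
  | node F hF _ ih =>
    refine .node F hF fun a ha => ih a ha fun τ hτ => h τ ?_
    exact (List.prefix_append _ _).trans hτ

theorem restrict {k : ℕ} {X : List ℕ → Prop} {σ : List ℕ} (hb : Big k X σ) :
    Big k (fun ρ => X ρ ∧ σ <+: ρ) σ := by
  induction hb with
  | leaf hx => exact .leaf ⟨hx, List.prefix_refl _⟩
  | node F hF _ ih =>
    refine .node F hF fun a ha => (ih a ha).mono_set fun ρ hρ => ⟨hρ.1, ?_⟩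
    exact (List.prefix_append _ _).trans hρ.2

theorem union {k l : ℕ} {X Y : List ℕ → Prop} {σ : List ℕ}
    (hb : Big (k + l) (fun ρ => X ρ ∨ Y ρ) σ) : Big k X σ ∨ Big l Y σ := by
  classical
  induction hb with
  | leaf hx => exact hx.imp .leaf .leaf
  | @node σ F hF _ ih =>
    by_cases h1 : k * 2 ^ σ.length ≤ (F.filter fun a => Big k X (σ ++ [a])).card
    · left
      exact .node _ h1 fun a ha => (Finset.mem_filter.1 ha).2
    · right
      refine .node (F.filter fun a => ¬ Big k X (σ ++ [a])) ?_ fun a ha => ?_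
      · have := Finset.card_filter_add_card_filter_not (s := F)
          (fun a => Big k X (σ ++ [a]))
        rw [add_mul] at hF
        omega
      · have ha' := Finset.mem_filter.1 ha
        exact (ih a ha'.1).resolve_left ha'.2

theorem pigeon {k h : ℕ} {S : List ℕ → Prop} {X : ℕ → List ℕ → Prop} {σ : List ℕ}
    (h0 : 0 < h) (hb : Big (h * k) (fun ρ => S ρ ∨ ∃ v < h, X v ρ) σ) :
    ∃ v < h, Big k (fun ρ => S ρ ∨ X v ρ) σ := by
  induction h with
  | zero => omega
  | succ h ih =>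
    rcases Nat.eq_zero_or_pos h with rfl | hpos
    · refine ⟨0, by omega, ?_⟩
      rw [zero_add, one_mul] at hb
      refine hb.mono_set fun ρ hρ => hρ.imp id ?_
      rintro ⟨v, hv, hx⟩
      obtain rfl : v = 0 := by omega
      exact hx
    · have hb' : Big (h * k + k)
          (fun ρ => (S ρ ∨ ∃ v < h, X v ρ) ∨ (S ρ ∨ X h ρ)) σ := by
        rw [add_mul, one_mul] at hb
        refine hb.mono_set fun ρ hρ => ?_
        rcases hρ with hρ | ⟨v, hv, hx⟩
        · exact Or.inl (Or.inl hρ)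
        · rcases Nat.lt_succ_iff_lt_or_eq.1 hv with h1 | rfl
          · exact Or.inl (Or.inr ⟨v, h1, hx⟩)
          · exact Or.inr (Or.inr hx)
      rcases hb'.union with h1 | h1
      · obtain ⟨v, hv, hx⟩ := ih hpos h1
        exact ⟨v, by omega, hx⟩
      · exact ⟨h, by omega, h1⟩

/-- finite witnesses -/
theorem finite_wit {k : ℕ} {S X : List ℕ → Prop} {σ : List ℕ}
    (hb : Big k (fun ρ => S ρ ∨ X ρ) σ) :
    ∃ l : List (List ℕ), (∀ ρ ∈ l, X ρ) ∧ Big k (fun ρ => S ρ ∨ ρ ∈ l) σ := by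
  classical
  induction hb with
  | @leaf σ hx =>
    rcases hx with hx | hx
    · exact ⟨[], by simp, .leaf (Or.inl hx)⟩
    · exact ⟨[σ], by simpa using hx, .leaf (Or.inr (by simp))⟩
  | @node σ F hF _ ih =>
    choose! L hL using ih
    refine ⟨F.toList.flatMap L, ?_, .node F hF fun a ha => (hL a ha).2.mono_set ?_⟩
    · intro ρ hρ
      obtain ⟨a, ha, hρ⟩ := List.mem_flatMap.1 hρ
      exact (hL a (Finset.mem_toList.1 ha)).1 ρ hρ
    · intro ρ hρ
      exact hρ.imp id fun h => List.mem_flatMap.2 ⟨a, Finset.mem_toList.2 ha, h⟩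

/-- number of immediate successors `ρ ++ [a]`, `a < M`, in the list `t` -/
def cnt (t : List (List ℕ)) (ρ : List ℕ) (M : ℕ) : ℕ :=
  ((List.range M).filter (fun a => ρ ++ [a] ∈ t)).length

theorem cnt_eq (t : List (List ℕ)) (ρ : List ℕ) (M : ℕ) :
    cnt t ρ M = ((Finset.range M).filter (fun a => ρ ++ [a] ∈ t)).card := by
  simp [cnt, Finset.card, Finset.filter, Finset.range, Multiset.range]

theorem cnt_primrec : Primrec (fun x : (List (List ℕ) × List ℕ) × ℕ => cnt x.1.1 x.1.2 x.2) := by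
  unfold cnt
  have hmem : PrimrecRel (fun (a : ℕ) (b : List (List ℕ) × List ℕ) => b.2 ++ [a] ∈ b.1) := by
    have h1 : PrimrecRel (fun (L : List (List ℕ)) (b : List ℕ) => ∃ a ∈ L, a = b) :=
      PrimrecRel.exists_mem_list Primrec.eq
    have h2 := h1.comp (Primrec.fst.comp (Primrec.snd (α := ℕ) (β := List (List ℕ) × List ℕ)))
      (Primrec.list_concat.comp (Primrec.snd.comp Primrec.snd) Primrec.fst)
    refine PrimrecPred.of_eq h2 fun x => ?_
    simp
  exact Primrec.list_length.comp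
    ((PrimrecRel.listFilter hmem).comp (Primrec.list_range.comp Primrec.snd) Primrec.fst)

theorem iff_closed {k : ℕ} {X : List ℕ → Prop} {σ : List ℕ} :
    Big k X σ ↔ ∃ t : List (List ℕ), σ ∈ t ∧
      ∀ ρ ∈ t, X ρ ∨ ∃ M, k * 2 ^ ρ.length ≤ cnt t ρ M := by
  classical
  constructor
  · intro hb
    induction hb with
    | @leaf σ hx => exact ⟨[σ], by simp, fun ρ hρ => Or.inl (by simpa [List.mem_singleton.1 hρ])⟩
    | @node σ F hF _ ih =>
      choose! T hT using ih
      refine ⟨σ :: F.toList.flatMap T, by simp, ?_⟩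
      have hmono : ∀ (t t' : List (List ℕ)) ρ M, (∀ x ∈ t, x ∈ t') → cnt t ρ M ≤ cnt t' ρ M := by
        intro t t' ρ M h
        rw [cnt_eq, cnt_eq]
        exact Finset.card_le_card (Finset.monotone_filter_right _ (fun a _ ha => h _ ha))
      intro ρ hρ
      rcases List.mem_cons.1 hρ with rfl | hρ
      · right
        refine ⟨F.sup id + 1, le_trans hF ?_⟩
        rw [cnt_eq]
        refine Finset.card_le_card fun a ha => ?_
        refine Finset.mem_filter.2 ⟨Finset.mem_range.2
          (Nat.lt_succ_of_le (Finset.le_sup (f := id) ha)), ?_⟩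
        exact List.mem_cons_of_mem _ (List.mem_flatMap.2 ⟨a, Finset.mem_toList.2 ha, (hT a ha).1⟩)
      · obtain ⟨a, ha, hρ⟩ := List.mem_flatMap.1 hρ
        have ha := Finset.mem_toList.1 ha
        refine ((hT a ha).2 ρ hρ).imp id ?_
        rintro ⟨M, hM⟩
        refine ⟨M, le_trans hM (hmono _ _ _ _ fun x hx => ?_)⟩
        exact List.mem_cons_of_mem _ (List.mem_flatMap.2 ⟨a, Finset.mem_toList.2 ha, hx⟩)
  · rintro ⟨t, hσ, ht⟩
    -- induction on (bound on lengths) - length
    have hbound : ∃ N, ∀ ρ ∈ t, ρ.length ≤ N := by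
      refine ⟨(t.map List.length).sum, fun ρ hρ => ?_⟩
      exact List.le_sum_of_mem (List.mem_map.2 ⟨ρ, hρ, rfl⟩)
    obtain ⟨N, hN⟩ := hbound
    have key : ∀ d, ∀ ρ ∈ t, N + 1 - ρ.length ≤ d → Big k X ρ := by
      intro d
      induction d with
      | zero =>
        intro ρ hρ hd
        have := hN ρ hρ
        omega
      | succ d ih =>
        intro ρ hρ hd
        rcases ht ρ hρ with hx | ⟨M, hM⟩
        · exact .leaf hx
        · rw [cnt_eq] at hM
          refine .node _ hM fun a ha => ?_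
          have ha' := (Finset.mem_filter.1 ha).2
          refine ih _ ha' ?_
          simp only [List.length_append, List.length_cons, List.length_nil]
          have := hN ρ hρ
          omega
    exact key _ σ hσ le_rfl

theorem re {S : List ℕ → Prop} (hS : REPred S) :
    REPred (fun x : (ℕ × List (List ℕ)) × List ℕ =>
      Big x.1.1 (fun ρ => S ρ ∨ ρ ∈ x.1.2) x.2) := by
  have hmemT : PrimrecRel (fun (b : List ℕ) (L : List (List ℕ)) => b ∈ L) := by
    have h1 : PrimrecRel (fun (L : List (List ℕ)) (b : List ℕ) => ∃ a ∈ L, a = b) :=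
      PrimrecRel.exists_mem_list Primrec.eq
    refine PrimrecRel.of_eq (PrimrecRel.swap h1) fun a b => ?_
    simp [Function.swap]
  -- the inner predicate
  have hin : REPred (fun y : (((ℕ × List (List ℕ)) × List ℕ) × List (List ℕ)) × List ℕ =>
      (S y.2 ∨ y.2 ∈ y.1.1.1.2) ∨
        ∃ M, y.1.1.1.1 * 2 ^ y.2.length ≤ cnt y.1.2 y.2 M) := by
    refine re_or (re_or ?_ ?_) ?_
    · exact re_comp hS Computable.snd
    · refine re_of_primrec ?_
      exact hmemT.comp Primrec.snd
        (Primrec.snd.comp (Primrec.fst.comp (Primrec.fst.comp Primrec.fst)))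
    · refine re_exists (p := fun (y : (((ℕ × List (List ℕ)) × List ℕ) × List (List ℕ)) × List ℕ)
        (M : ℕ) => y.1.1.1.1 * 2 ^ y.2.length ≤ cnt y.1.2 y.2 M) ?_
      refine re_of_primrec ?_
      have hpow : Primrec₂ (fun a b : ℕ => a ^ b) := Primrec₂.unpaired'.1 Nat.Primrec.pow
      refine Primrec.nat_le.comp (Primrec.nat_mul.comp ?_ ?_) ?_
      · exact Primrec.fst.comp (Primrec.fst.comp (Primrec.fst.comp (Primrec.fst.comp Primrec.fst)))
      · exact hpow.comp (Primrec.const 2)
          (Primrec.list_length.comp (Primrec.snd.comp Primrec.fst))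
      · exact cnt_primrec.comp
          (g := fun z : ((((ℕ × List (List ℕ)) × List ℕ) × List (List ℕ)) × List ℕ) × ℕ =>
            ((z.1.1.2, z.1.2), z.2))
          (((Primrec.snd.comp (Primrec.fst.comp Primrec.fst)).pair
            (Primrec.snd.comp Primrec.fst)).pair Primrec.snd)
  have h2 := re_forall_mem
    (p := fun (y : ((ℕ × List (List ℕ)) × List ℕ) × List (List ℕ)) (ρ : List ℕ) =>
      (S ρ ∨ ρ ∈ y.1.1.2) ∨ ∃ M, y.1.1.1 * 2 ^ ρ.length ≤ cnt y.2 ρ M) hin
  have h3 := re_comp h2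
    (f := fun y : ((ℕ × List (List ℕ)) × List ℕ) × List (List ℕ) => (y, y.2))
    (Computable.id.pair Computable.snd)
  have h4 : REPred (fun y : ((ℕ × List (List ℕ)) × List ℕ) × List (List ℕ) => y.1.2 ∈ y.2) :=
    re_of_primrec (hmemT.comp (Primrec.snd.comp Primrec.fst) Primrec.snd)
  have h5 := re_exists
    (p := fun (x : (ℕ × List (List ℕ)) × List ℕ) (t : List (List ℕ)) => x.2 ∈ t ∧
      ∀ ρ ∈ t, (S ρ ∨ ρ ∈ x.1.2) ∨ ∃ M, x.1.1 * 2 ^ ρ.length ≤ cnt t ρ M)
    (re_and h4 h3)
  exact h5.of_eq fun x => iff_closed.symm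

end Big

end Pool.Agent.Lib.MP_f26228_lc
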