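import Pool.Agent.Lib.MP_f26228_lc.Use

set_option autoImplicit false

/-!
Fair coin tossing.
-/

namespace Pool.Agent.Lib.MP_f26228_lc

open MeasureTheory ENNReal

/-- fair coin -/
noncomputable abbrev coin : Measure Bool := (PMF.uniformOfFintype Bool).toMeasure

/-- coin tossing measure -/
noncomputable abbrev mu : Measure (ℕ → Bool) :=
  Measure.infinitePi (fun _ : ℕ => (PMF.uniformOfFintype Bool).toMeasure)

theorem coin_singleton (b : Bool) : coin {b} = 2⁻¹ := by
  rw [PMF.toMeasure_apply_singleton _ _ (MeasurableSet.singleton b)]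
  simp

/-- measure of a cylinder -/
theorem mu_cyl (s : Finset ℕ) (b : ℕ → Bool) :
    mu {B | ∀ x ∈ s, B x = b x} = 2⁻¹ ^ s.card := by
  have h : {B : ℕ → Bool | ∀ x ∈ s, B x = b x} = Set.pi (s : Set ℕ) (fun x => {b x}) := by
    ext B; simp [Set.mem_pi]
  rw [h, Measure.infinitePi_pi _ (fun i _ => MeasurableSet.singleton _)]
  simp only [coin_singleton, Finset.prod_const]

/-- natural-number valued version of a set -/
def nat (B : ℕ → Bool) (x : ℕ) : ℕ := (B x).toNat

/-- all 0-1 strings of length `M` -/
def allStr (M : ℕ) : List (List ℕ) :=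
  M.rec [[]] fun _ l => l.flatMap fun ρ => [ρ ++ [0], ρ ++ [1]]

theorem allStr_succ (M : ℕ) :
    allStr (M + 1) = (allStr M).flatMap fun ρ => [ρ ++ [0], ρ ++ [1]] := rfl

theorem allStr_primrec : Primrec allStr := by
  unfold allStr
  refine Primrec.nat_rec' (f := fun M : ℕ => M) (g := fun _ => ([[]] : List (List ℕ)))
    (h := fun _ (y : ℕ × List (List ℕ)) => y.2.flatMap fun ρ => [ρ ++ [0], ρ ++ [1]])
    Primrec.id (Primrec.const _) ?_
  refine Primrec.list_flatMap (Primrec.snd.comp Primrec.snd) ?_
  refine Primrec.list_cons.comp ?_ (Primrec.list_cons.comp ?_ (Primrec.const []))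
  · exact Primrec.list_concat.comp Primrec.snd (Primrec.const 0)
  · exact Primrec.list_concat.comp Primrec.snd (Primrec.const 1)

theorem seg_succ {α : Type} (O : ℕ → α) (M : ℕ) : seg O (M + 1) = seg O M ++ [O M] := by
  simp [seg, List.range_succ]

theorem seg_congr {α : Type} {O O' : ℕ → α} {M : ℕ} (h : ∀ x < M, O x = O' x) :
    seg O M = seg O' M := by
  unfold seg
  exact List.map_congr_left fun x hx => h x (List.mem_range.1 hx)

theorem seg_inj {α : Type} {O O' : ℕ → α} {M : ℕ} (h : seg O M = seg O' M) :
    ∀ x < M, O x = O' x := by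
  intro x hx
  have := congrArg (fun l => l[x]?) h
  simpa [seg_getElem?, hx] using this

theorem mem_allStr_seg (B : ℕ → Bool) (M : ℕ) : seg (nat B) M ∈ allStr M := by
  induction M with
  | zero => simp [seg, allStr]
  | succ M ih =>
    rw [allStr_succ, List.mem_flatMap]
    refine ⟨seg (nat B) M, ih, ?_⟩
    rw [seg_succ]
    unfold nat
    cases B M <;> simp

theorem exists_of_mem_allStr {M : ℕ} {ρ : List ℕ} (h : ρ ∈ allStr M) :
    ∃ b : ℕ → Bool, ρ = seg (nat b) M := by
  induction M generalizing ρ with
  | zero =>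
    refine ⟨fun _ => false, ?_⟩
    simpa [allStr, seg] using h
  | succ M ih =>
    rw [allStr_succ, List.mem_flatMap] at h
    obtain ⟨ρ', h1, h2⟩ := h
    obtain ⟨b, rfl⟩ := ih h1
    have key : ∀ d : Bool, seg (nat (Function.update b M d)) (M + 1) =
        seg (nat b) M ++ [d.toNat] := by
      intro d
      rw [seg_succ]
      congr 1
      · refine seg_congr fun x hx => ?_
        simp [nat, Function.update_of_ne (Nat.ne_of_lt hx)]
      · simp [nat]
    simp only [List.mem_cons, List.not_mem_nil, or_false] at h2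
    rcases h2 with rfl | rfl
    · exact ⟨_, (key false).symm⟩
    · exact ⟨_, (key true).symm⟩

theorem allStr_length {M : ℕ} {ρ : List ℕ} (h : ρ ∈ allStr M) : ρ.length = M := by
  obtain ⟨b, rfl⟩ := exists_of_mem_allStr h
  exact seg_length _ _

theorem allStr_nodup (M : ℕ) : (allStr M).Nodup := by
  induction M with
  | zero => simp [allStr]
  | succ M ih =>
    rw [allStr_succ, List.nodup_flatMap]
    refine ⟨fun ρ _ => by simp, ?_⟩
    refine ih.pairwise_of_forall_ne fun a _ b _ hab => ?_
    unfold Function.onFun List.Disjoint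
    intro x hx1 hx2
    simp only [List.mem_cons, List.not_mem_nil, or_false] at hx1 hx2
    apply hab
    rcases hx1 with rfl | rfl <;> rcases hx2 with h | h <;>
      exact (List.append_inj' h rfl).1

theorem mu_seg {M : ℕ} {ρ : List ℕ} (h : ρ ∈ allStr M) :
    mu {B | seg (nat B) M = ρ} = 2⁻¹ ^ M := by
  obtain ⟨b, rfl⟩ := exists_of_mem_allStr h
  have h1 : {B : ℕ → Bool | seg (nat B) M = seg (nat b) M} =
      {B | ∀ x ∈ Finset.range M, B x = b x} := by
    ext B
    simp only [Set.mem_ofPred_eq, Finset.mem_range]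
    constructor
    · intro h x hx
      have := seg_inj h x hx
      unfold nat at this
      revert this
      cases B x <;> cases b x <;> simp
    · intro h
      exact seg_congr fun x hx => by unfold nat; rw [h x hx]
  rw [h1, mu_cyl, Finset.card_range]

theorem measurable_seg (M : ℕ) (p : List ℕ → Prop) :
    MeasurableSet {B : ℕ → Bool | p (seg (nat B) M)} := by
  induction M generalizing p with
  | zero =>
    by_cases h : p []
    · convert MeasurableSet.univ
      ext B
      simpa [seg] using h
    · convert MeasurableSet.empty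
      ext B
      simpa [seg] using h
  | succ M ih =>
    have h1 : {B : ℕ → Bool | p (seg (nat B) (M + 1))} =
        ({B | B M = true} ∩ {B | p (seg (nat B) M ++ [1])}) ∪
        ({B | B M = false} ∩ {B | p (seg (nat B) M ++ [0])}) := by
      ext B
      simp only [Set.mem_ofPred_eq, Set.mem_union, Set.mem_inter_iff, seg_succ]
      unfold nat
      cases B M <;> simp
    rw [h1]
    have hm : ∀ d : Bool, MeasurableSet {B : ℕ → Bool | B M = d} := fun d => by
      have h2 : MeasurableSet ((fun f : ℕ → Bool => f M) ⁻¹' {d}) :=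
        measurable_pi_apply M (MeasurableSet.singleton d)
      convert h2 using 1
      ext B; simp
    exact ((hm true).inter (ih fun ρ => p (ρ ++ [1]))).union
      ((hm false).inter (ih fun ρ => p (ρ ++ [0])))

theorem mu_event (M : ℕ) (p : List ℕ → Prop) [DecidablePred p] :
    mu {B | p (seg (nat B) M)} = ((allStr M).filter p).length * 2⁻¹ ^ M := by
  have h1 : {B : ℕ → Bool | p (seg (nat B) M)} =
      ⋃ ρ ∈ ((allStr M).filter p).toFinset, {B | seg (nat B) M = ρ} := by
    ext B
    simp only [Set.mem_ofPred_eq, Set.mem_iUnion, List.mem_toFinset, List.mem_filter,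
      decide_eq_true_eq, exists_prop, exists_eq_right']
    exact ⟨fun h => ⟨mem_allStr_seg B M, h⟩, fun h => h.2⟩
  rw [h1, measure_biUnion_finset]
  · rw [Finset.sum_congr rfl (g := fun _ => (2⁻¹ : ℝ≥0∞) ^ M)]
    · rw [Finset.sum_const, List.toFinset_card_of_nodup ((allStr_nodup M).filter _), nsmul_eq_mul]
    · intro ρ hρ
      rw [List.mem_toFinset, List.mem_filter] at hρ
      exact mu_seg hρ.1
  · intro a _ b _ hab
    refine Set.disjoint_left.2 fun B h1 h2 => hab ?_
    exact h1.symm.trans h2
  · intro ρ _
    exact measurable_seg M (fun ρ' => ρ' = ρ)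

end Pool.Agent.Lib.MP_f26228_lc
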