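import Mathlib

set_option autoImplicit false

/-!
The universal scheduler. Process `c` (a code of a partial recursive function) starts in state `0` at
position `0`; in state `s` at position `n` it computes `eval c (pair s n) = pair s' v`; then it
outputs `v` at position `n` and goes on in state `s'` at the next free position.
-/

namespace Pool.Agent.Lib.MP_f26228_lc

open Nat.Partrec (Code)
open Nat.Partrec.Code Encodable Denumerable

/-- state and position of the current task of process `c` at time `m` -/
def St (c : Code) (m : ℕ) : ℕ × ℕ :=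
  m.rec (0, 0) fun t y =>
    ((evaln t c (Nat.pair y.1 y.2)).map (fun r => (r.unpair.1, t + 1))).getD y

theorem St_zero (c : Code) : St c 0 = (0, 0) := rfl

theorem St_succ (c : Code) (m : ℕ) : St c (m + 1) =
    ((evaln m c (Nat.pair (St c m).1 (St c m).2)).map (fun r => (r.unpair.1, m + 1))).getD
      (St c m) := rfl

theorem St_primrec : Primrec₂ St := by
  unfold St
  refine Primrec.nat_rec' (f := fun x : Code × ℕ => x.2) (g := fun _ => ((0, 0) : ℕ × ℕ))
    (h := fun x (z : ℕ × (ℕ × ℕ)) =>
      ((evaln z.1 x.1 (Nat.pair z.2.1 z.2.2)).map (fun r => (r.unpair.1, z.1 + 1))).getD z.2)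
    Primrec.snd (Primrec.const _) ?_
  refine Primrec.option_getD.comp (Primrec.option_map ?_ ?_) (Primrec.snd.comp Primrec.snd)
  · exact primrec_evaln.comp
      (g := fun x : (Code × ℕ) × ℕ × ℕ × ℕ => ((x.2.1, x.1.1), Nat.pair x.2.2.1 x.2.2.2))
      (((Primrec.fst.comp Primrec.snd).pair (Primrec.fst.comp Primrec.fst)).pair
        (Primrec₂.natPair.comp (Primrec.fst.comp (Primrec.snd.comp Primrec.snd))
          (Primrec.snd.comp (Primrec.snd.comp Primrec.snd))))
  · exact ((Primrec.fst.comp (Primrec.unpair.comp Primrec.snd)).pair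
      (Primrec.succ.comp (Primrec.fst.comp (Primrec.snd.comp Primrec.fst)))).to₂

/-- the output of process number `i` at position `n` -/
def Psi (i n : ℕ) : Part ℕ :=
  cond (decide ((St (ofNat Code i) n).2 = n))
    ((eval (ofNat Code i) (Nat.pair (St (ofNat Code i) n).1 n)).map (fun r => r.unpair.2))
    (Part.some 0)

theorem Psi_partrec : Partrec₂ Psi := by
  unfold Psi
  have hSt : Primrec (fun x : ℕ × ℕ => St (ofNat Code x.1) x.2) :=
    St_primrec.comp ((Primrec.ofNat Code).comp Primrec.fst) Primrec.snd
  refine Partrec.cond ?_ ?_ (Computable.const 0).partrec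
  · exact (Primrec.eq.decide.comp (Primrec.snd.comp hSt) Primrec.snd).to_comp
  · refine Partrec.map (eval_part.comp ((Primrec.ofNat Code).comp Primrec.fst).to_comp
      (Primrec₂.natPair.comp (Primrec.fst.comp hSt) Primrec.snd).to_comp) ?_
    exact (Primrec.snd.comp (Primrec.unpair.comp Primrec.snd)).to₂.to_comp

/-- a task of process `c`: state `s`, position `n` -/
def IsTask (c : Code) (s n : ℕ) : Prop := St c n = (s, n)

theorem IsTask.zero (c : Code) : IsTask c 0 0 := St_zero c

theorem IsTask.next {c : Code} {s n r : ℕ} (ht : IsTask c s n) (hr : r ∈ eval c (Nat.pair s n)) :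
    ∃ n', n < n' ∧ IsTask c r.unpair.1 n' ∧ ∀ m, n ≤ m → m < n' → St c m = (s, n) := by
  classical
  have hex : ∃ m, n ≤ m ∧ r ∈ evaln m c (Nat.pair s n) := by
    obtain ⟨k, hk⟩ := evaln_complete.1 hr
    exact ⟨max k n, le_max_right _ _, evaln_mono (le_max_left _ _) hk⟩
  let m := Nat.find hex
  have hm : n ≤ m ∧ r ∈ evaln m c (Nat.pair s n) := Nat.find_spec hex
  have hmin : ∀ m', n ≤ m' → m' < m → evaln m' c (Nat.pair s n) = none := by
    intro m' h1 h2
    cases h : evaln m' c (Nat.pair s n) with
    | none => rfl
    | some r' =>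
      exfalso
      have h3 : r' ∈ eval c (Nat.pair s n) := evaln_sound h
      obtain rfl := Part.mem_unique h3 hr
      exact Nat.find_min hex h2 ⟨h1, h⟩
  have hst : ∀ d, n + d ≤ m → St c (n + d) = (s, n) := by
    intro d
    induction d with
    | zero => intro _; exact ht
    | succ d ih =>
      intro hd
      have h1 := ih (by omega)
      rw [← add_assoc, St_succ, h1]
      simp only
      rw [hmin (n + d) (by omega) (by omega)]
      rfl
  refine ⟨m + 1, by omega, ?_, ?_⟩
  · have h1 : St c m = (s, n) := by
      have := hst (m - n) (by omega)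
      rwa [Nat.add_sub_cancel' hm.1] at this
    unfold IsTask
    rw [St_succ, h1]
    simp only
    have h2 : evaln m c (Nat.pair s n) = some r := hm.2
    rw [h2]
    rfl
  · intro m' h1 h2
    have := hst (m' - n) (by omega)
    rwa [Nat.add_sub_cancel' h1] at this

theorem IsTask.stuck {c : Code} {s n : ℕ} (ht : IsTask c s n)
    (hr : ¬ (eval c (Nat.pair s n)).Dom) : ∀ m, n ≤ m → St c m = (s, n) := by
  intro m hm
  induction m, hm using Nat.le_induction with
  | base => exact ht
  | succ m hm ih =>
    rw [St_succ, ih]
    simp only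
    cases h : evaln m c (Nat.pair s n) with
    | none => rfl
    | some r' =>
      exfalso
      exact hr (Part.dom_iff_mem.2 ⟨r', evaln_sound h⟩)

theorem Psi_mem {i s n r : ℕ} (ht : IsTask (ofNat Code i) s n)
    (hr : r ∈ eval (ofNat Code i) (Nat.pair s n)) : r.unpair.2 ∈ Psi i n := by
  unfold Psi
  rw [ht]
  simp only [decide_true, cond_true, Part.mem_map_iff]
  exact ⟨r, hr, rfl⟩

theorem Psi_subsingleton (i : ℕ) : Set.Subsingleton {n | ¬ (Psi i n).Dom} := by
  -- an undefined value is a stuck task
  have key : ∀ n, ¬ (Psi i n).Dom → ∀ m, n ≤ m → (St (ofNat Code i) m).2 = n := by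
    intro n hn m hm
    by_cases h : (St (ofNat Code i) n).2 = n
    · have ht : IsTask (ofNat Code i) (St (ofNat Code i) n).1 n := by
        unfold IsTask
        ext
        · rfl
        · exact h
      have hd : ¬ (eval (ofNat Code i) (Nat.pair (St (ofNat Code i) n).1 n)).Dom := by
        intro hd
        apply hn
        unfold Psi
        rw [decide_eq_true h]
        exact hd
      rw [ht.stuck hd m hm]
    · exfalso
      apply hn
      unfold Psi
      rw [decide_eq_false h]
      trivial
  intro a ha b hb
  rcases le_total a b with h | h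
  · have h1 := key a ha b h
    have h2 := key b hb b le_rfl
    exact h1.symm.trans h2
  · have h1 := key b hb a h
    have h2 := key a ha a le_rfl
    exact h2.symm.trans h1

end Pool.Agent.Lib.MP_f26228_lc
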