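import Pool.Agent.Lib.MP_f26228_lc.Coin
import Pool.Agent.Lib.MP_f26228_lc.Psi

set_option autoImplicit false

/-!
Random choice of a process at each position, from the columns of `B`.
-/

namespace Pool.Agent.Lib.MP_f26228_lc

open MeasureTheory ENNReal

/-- `n`-th column -/
def col (B : ℕ → Bool) (n : ℕ) : ℕ → Bool := fun j => B (Nat.pair n j)

/-- sequences whose first `false` is at `i` -/
def K (i : ℕ) : Set (ℕ → Bool) := {x | (∀ j < i, x j = true) ∧ x i = false}

theorem mu_col_K (n i : ℕ) : mu {B | col B n ∈ K i} = 2⁻¹ ^ (i + 1) := by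
  classical
  have h1 : {B | col B n ∈ K i} = {B : ℕ → Bool |
      ∀ x ∈ (Finset.range (i + 1)).image (Nat.pair n), B x = decide (x.unpair.2 < i)} := by
    ext B
    simp only [K, col, Set.mem_ofPred_eq, Finset.mem_image, Finset.mem_range,
      forall_exists_index, and_imp, forall_apply_eq_imp_iff₂, Nat.unpair_pair]
    constructor
    · rintro ⟨h1, h2⟩ j hj
      rcases Nat.lt_succ_iff_lt_or_eq.1 hj with h | rfl
      · rw [h1 j h]; simp [h]
      · rw [h2]; simp
    · intro h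
      refine ⟨fun j hj => ?_, ?_⟩
      · rw [h j (by omega)]; simp [hj]
      · rw [h i (by omega)]; simp
  rw [h1, mu_cyl _ (fun x => decide (x.unpair.2 < i)), Finset.card_image_of_injective,
    Finset.card_range]
  intro a b hab
  exact (Nat.pair_eq_pair.1 hab).2

theorem mu_col_true (n : ℕ) : mu {B | ∀ j, col B n j = true} = 0 := by
  classical
  have h1 : ∀ i : ℕ, mu {B | ∀ j, col B n j = true} ≤ 2⁻¹ ^ i := by
    intro i
    have h2 : {B | ∀ j, col B n j = true} ⊆ {B : ℕ → Bool |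
        ∀ x ∈ (Finset.range i).image (Nat.pair n), B x = true} := by
      intro B hB x hx
      obtain ⟨j, -, rfl⟩ := Finset.mem_image.1 hx
      exact hB j
    refine (measure_mono h2).trans ?_
    rw [mu_cyl _ (fun _ => true), Finset.card_image_of_injective, Finset.card_range]
    intro a b hab
    exact (Nat.pair_eq_pair.1 hab).2
  have h3 : Filter.Tendsto (fun i : ℕ => (2⁻¹ : ℝ≥0∞) ^ i) Filter.atTop (nhds 0) :=
    ENNReal.tendsto_pow_atTop_nhds_zero_of_lt_one (by
      rw [ENNReal.inv_lt_one]; norm_num)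
  exact le_antisymm (ge_of_tendsto' h3 h1) bot_le

theorem K_meas (i : ℕ) : MeasurableSet (K i) := by
  have h1 : K i = (⋂ j ∈ Finset.range i, (fun x : ℕ → Bool => x j) ⁻¹' {true}) ∩
      (fun x : ℕ → Bool => x i) ⁻¹' {false} := by
    ext x; simp [K]
  rw [h1]
  refine MeasurableSet.inter (Finset.measurableSet_biInter _ fun j _ => ?_) ?_
  · exact measurable_pi_apply j (MeasurableSet.singleton _)
  · exact measurable_pi_apply i (MeasurableSet.singleton _)

theorem map_col : mu.map col = Measure.infinitePi (fun _ : ℕ => mu) := by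
  have h1 := Measure.map_infinitePi_infinitePi_of_inj (α := ℕ × ℕ) (Ω := fun _ : ℕ => Bool)
    (P := fun _ => (PMF.uniformOfFintype Bool).toMeasure) (f := fun p => Nat.pair p.1 p.2)
    (fun a b hab => Prod.ext (Nat.pair_eq_pair.1 hab).1 (Nat.pair_eq_pair.1 hab).2)
  have h2 := Measure.infinitePi_map_curry (ι := ℕ) (κ := ℕ) (X := Bool)
    (fun _ _ => (PMF.uniformOfFintype Bool).toMeasure)
  rw [← h2, ← h1, Measure.map_map]
  · rfl
  · fun_prop
  · fun_prop

theorem measurable_col : Measurable col := by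
  unfold col; fun_prop

theorem mu_K (i : ℕ) : mu (K i) = 2⁻¹ ^ (i + 1) := by
  have h1 : mu {B | col B 0 ∈ K i} = mu (K i) := by
    have h2 : {B | col B 0 ∈ K i} = col ⁻¹' ((fun ω : ℕ → ℕ → Bool => ω 0) ⁻¹' (K i)) := by
      ext B; simp
    rw [h2, ← Measure.map_apply measurable_col (measurable_pi_apply 0 (K_meas i)), map_col]
    have h3 := measurePreserving_eval_infinitePi (fun _ : ℕ => mu) 0
    exact h3.measure_preimage (K_meas i).nullMeasurableSet
  rw [← h1, mu_col_K]

/-- infinitely many chances suffice -/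
theorem exists_hit (i : ℕ) {D : Set ℕ} (hD : D.Infinite) :
    ∀ᵐ B ∂mu, ∃ n ∈ D, col B n ∈ K i := by
  have hq : (1 : ℝ≥0∞) - 2⁻¹ ^ (i + 1) < 1 := by
    refine ENNReal.sub_lt_self one_ne_top one_ne_zero ?_
    exact pow_ne_zero _ (by simp)
  have h3 : Filter.Tendsto (fun k : ℕ => ((1 : ℝ≥0∞) - 2⁻¹ ^ (i + 1)) ^ k) Filter.atTop (nhds 0) :=
    ENNReal.tendsto_pow_atTop_nhds_zero_of_lt_one hq
  rw [ae_iff]
  refine le_antisymm (ge_of_tendsto' h3 fun k => ?_) bot_le
  obtain ⟨E, hE1, hE2⟩ := hD.exists_subset_card_eq k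
  have h2 : {B | ¬ ∃ n ∈ D, col B n ∈ K i} ⊆
      col ⁻¹' (Set.pi (E : Set ℕ) (fun _ => (K i)ᶜ)) := by
    intro B hB
    simp only [Set.mem_preimage, Set.mem_pi, Set.mem_compl_iff]
    intro n hn hcon
    exact hB ⟨n, hE1 hn, hcon⟩
  refine (measure_mono h2).trans ?_
  rw [← Measure.map_apply measurable_col
    (MeasurableSet.pi (Finset.countable_toSet _) fun _ _ => (K_meas i).compl), map_col,
    Measure.infinitePi_pi _ fun _ _ => (K_meas i).compl, Finset.prod_const, hE2]
  rw [prob_compl_eq_one_sub (K_meas i), mu_K]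

theorem exists_hit_io (i : ℕ) {D : Set ℕ} (hD : ∀ N, ∃ n ≥ N, n ∈ D) :
    ∀ᵐ B ∂mu, ∀ N, ∃ n ≥ N, n ∈ D ∧ col B n ∈ K i := by
  rw [ae_all_iff]
  intro N
  have hinf : (D ∩ {n | N ≤ n}).Infinite := by
    rw [Set.infinite_iff_exists_gt]
    intro a
    obtain ⟨n, hn, hnD⟩ := hD (max N (a + 1))
    exact ⟨n, ⟨hnD, le_trans (le_max_left _ _) hn⟩, lt_of_lt_of_le (Nat.lt_succ_self a)
      (le_trans (le_max_right _ _) hn)⟩
  filter_upwards [exists_hit i hinf] with B hB
  obtain ⟨n, hn, hK⟩ := hB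
  exact ⟨n, hn.2, hn.1, hK⟩

/-- the index chosen at position `n` -/
noncomputable def ell (B : ℕ → Bool) (n : ℕ) : Part ℕ :=
  Nat.rfind fun j => (fun m => decide (m = 0)) <$>
    (fun x : ℕ => Part.some (B x).toNat) (Nat.pair n j)

theorem mem_ell {B : ℕ → Bool} {n i : ℕ} : i ∈ ell B n ↔ col B n ∈ K i := by
  unfold ell
  rw [Nat.mem_rfind]
  simp only [Part.map_eq_map, Part.map_some, Part.mem_some_iff, K, col, Set.mem_ofPred_eq]
  constructor
  · rintro ⟨h1, h2⟩
    refine ⟨fun j hj => ?_, ?_⟩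
    · have := h2 hj
      revert this
      cases B (Nat.pair n j) <;> simp
    · revert h1
      cases B (Nat.pair n i) <;> simp
  · rintro ⟨h1, h2⟩
    refine ⟨by rw [h2]; rfl, fun {j} hj => ?_⟩
    rw [h1 j hj]; rfl

theorem ell_dom {B : ℕ → Bool} {n : ℕ} (h : ¬ (ell B n).Dom) : ∀ j, col B n j = true := by
  by_contra hcon
  push Not at hcon
  apply h
  unfold ell
  rw [Nat.rfind_dom]
  obtain ⟨j, hj⟩ := hcon
  refine ⟨j, ?_, fun {m} _ => ?_⟩
  · simp only [Part.map_eq_map, Part.map_some, Part.mem_some_iff]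
    unfold col at hj
    revert hj
    cases B (Nat.pair n j) <;> simp
  · simp

/-- process `0` is trivial -/
def Psi' (l n : ℕ) : Part ℕ := l.casesOn (Part.some 0) fun i => Psi i n

theorem Psi'_partrec : Partrec₂ Psi' := by
  unfold Psi'
  refine Partrec.nat_casesOn_right (f := fun x : ℕ × ℕ => x.1) (g := fun _ => 0)
    (h := fun x i => Psi i x.2) Computable.fst (Computable.const 0) ?_
  exact Psi_partrec.comp Computable.snd (Computable.snd.comp Computable.fst)

/-- the function computed from `B` -/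
noncomputable def fB (B : ℕ → Bool) (n : ℕ) : Part ℕ := (ell B n).bind fun l => Psi' l n

theorem fB_partial : mu {B | ∃ n, ¬ (fB B n).Dom} ≤ 2⁻¹ := by
  classical
  have h1 : {B | ∃ n, ¬ (fB B n).Dom} ⊆ (⋃ n, {B | ∀ j, col B n j = true}) ∪
      ⋃ i, {B | ∃ n, ¬ (Psi i n).Dom ∧ col B n ∈ K (i + 1)} := by
    rintro B ⟨n, hn⟩
    by_cases hd : (ell B n).Dom
    · right
      obtain ⟨l, hl⟩ := Part.dom_iff_mem.1 hd
      have h2 : ¬ (Psi' l n).Dom := by
        intro hcon
        apply hn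
        obtain ⟨v, hv⟩ := Part.dom_iff_mem.1 hcon
        exact Part.dom_iff_mem.2 ⟨v, Part.mem_bind hl hv⟩
      cases l with
      | zero => exact (h2 trivial).elim
      | succ i => exact Set.mem_iUnion.2 ⟨i, n, h2, mem_ell.1 hl⟩
    · left
      exact Set.mem_iUnion.2 ⟨n, ell_dom hd⟩
  refine (measure_mono h1).trans ((measure_union_le _ _).trans ?_)
  have h2 : mu (⋃ n, {B | ∀ j, col B n j = true}) = 0 :=
    measure_iUnion_null fun n => mu_col_true n
  rw [h2, zero_add]
  refine (measure_iUnion_le _).trans ?_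
  have h3 : ∀ i, mu {B | ∃ n, ¬ (Psi i n).Dom ∧ col B n ∈ K (i + 1)} ≤ 2⁻¹ ^ (i + 2) := by
    intro i
    by_cases hex : ∃ n, ¬ (Psi i n).Dom
    · obtain ⟨n, hn⟩ := hex
      have h4 : {B | ∃ n, ¬ (Psi i n).Dom ∧ col B n ∈ K (i + 1)} ⊆ {B | col B n ∈ K (i + 1)} := by
        rintro B ⟨n', hn', hK⟩
        have : n' = n := Psi_subsingleton i hn' hn
        rwa [this] at hK
      exact (measure_mono h4).trans (mu_col_K n (i + 1)).le
    · have h4 : {B | ∃ n, ¬ (Psi i n).Dom ∧ col B n ∈ K (i + 1)} = ∅ := by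
        ext B
        simp only [Set.mem_ofPred_eq, Set.mem_empty_iff_false, iff_false]
        rintro ⟨n', hn', -⟩
        exact hex ⟨n', hn'⟩
      rw [h4, measure_empty]; exact bot_le
  refine (ENNReal.tsum_le_tsum h3).trans ?_
  have h5 : ∀ i : ℕ, (2⁻¹ : ℝ≥0∞) ^ (i + 2) = 2⁻¹ ^ 2 * 2⁻¹ ^ i := fun i => by
    rw [pow_add, mul_comm]
  rw [tsum_congr h5]
  rw [ENNReal.tsum_mul_left, ENNReal.tsum_geometric, ENNReal.one_sub_inv_two, inv_inv, pow_two,
    mul_assoc, ENNReal.inv_mul_cancel (by norm_num) (by norm_num), mul_one]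

end Pool.Agent.Lib.MP_f26228_lc
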