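import Mathlib

set_option autoImplicit false

/-!
The use principle: a function recursive in a total oracle `O` is given by a monotone partial
recursive functional evaluated on finite initial segments of `O`.
-/

namespace Pool.Agent.Lib.MP_f26228_lc

/-- initial segment of length `M` of a function -/
def seg {α : Type} (O : ℕ → α) (M : ℕ) : List α := (List.range M).map O

theorem seg_length {α : Type} (O : ℕ → α) (M : ℕ) : (seg O M).length = M := by simp [seg]

theorem seg_getElem? {α : Type} (O : ℕ → α) (M x : ℕ) :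
    (seg O M)[x]? = if x < M then some (O x) else none := by
  simp only [seg, List.getElem?_map]
  split_ifs with h
  · rw [List.getElem?_range h]; rfl
  · rw [List.getElem?_eq_none (by simpa using h)]; rfl

theorem seg_prefix {α : Type} (O : ℕ → α) {M N : ℕ} (h : M ≤ N) : seg O M <+: seg O N := by
  rw [List.prefix_iff_eq_take]
  simp only [seg, List.length_map, List.length_range]
  rw [← List.map_take, List.take_range, min_eq_left h]

theorem seg_take {α : Type} (O : ℕ → α) {M N : ℕ} (h : M ≤ N) : (seg O N).take M = seg O M := by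
  have := seg_prefix O h
  rw [List.prefix_iff_eq_take, seg_length] at this
  exact this.symm

/-- the properties of a finite-oracle functional -/
def Mono (F : List ℕ → ℕ →. ℕ) : Prop :=
  ∀ ρ ρ' n v, ρ <+: ρ' → v ∈ F ρ n → v ∈ F ρ' n

theorem use_principle (O : ℕ → ℕ) (g : ℕ →. ℕ)
    (hg : Nat.RecursiveIn {fun n => Part.some (O n)} g) :
    ∃ F : List ℕ → ℕ →. ℕ, Partrec₂ F ∧ Mono F ∧
      ∀ n v, v ∈ g n ↔ ∃ M, v ∈ F (seg O M) n := by
  induction hg with
  | zero =>
    refine ⟨fun _ _ => Part.some 0, (Computable.const 0).partrec, fun _ _ _ _ _ h => h, ?_⟩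
    intro n v
    constructor
    · intro h; exact ⟨0, h⟩
    · rintro ⟨_, h⟩; exact h
  | succ =>
    refine ⟨fun _ n => Part.some (n + 1), (Computable.succ.comp Computable.snd).partrec,
      fun _ _ _ _ _ h => h, ?_⟩
    intro n v
    constructor
    · intro h; exact ⟨0, h⟩
    · rintro ⟨_, h⟩; exact h
  | left =>
    refine ⟨fun _ n => Part.some n.unpair.1,
      (Computable.fst.comp (Computable.unpair.comp Computable.snd)).partrec,
      fun _ _ _ _ _ h => h, ?_⟩
    intro n v
    constructor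
    · intro h; exact ⟨0, h⟩
    · rintro ⟨_, h⟩; exact h
  | right =>
    refine ⟨fun _ n => Part.some n.unpair.2,
      (Computable.snd.comp (Computable.unpair.comp Computable.snd)).partrec,
      fun _ _ _ _ _ h => h, ?_⟩
    intro n v
    constructor
    · intro h; exact ⟨0, h⟩
    · rintro ⟨_, h⟩; exact h
  | oracle g' hg' =>
    have hg'' : g' = fun n => Part.some (O n) := hg'
    subst hg''
    refine ⟨fun ρ n => (ρ[n]? : Part ℕ), ?_, ?_, ?_⟩
    · exact Computable.ofOption (Computable.list_getElem?.comp Computable.fst Computable.snd)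
    · intro ρ ρ' n v h hv
      obtain ⟨t, rfl⟩ := h
      simp only [Part.mem_ofOption, Option.mem_def] at hv ⊢
      rw [List.getElem?_append_left]
      · exact hv
      · exact (List.getElem?_eq_some_iff.1 hv).1
    · intro n v
      simp only [Part.mem_ofOption, Option.mem_def, seg_getElem?, Part.mem_some_iff]
      constructor
      · rintro rfl; exact ⟨n + 1, by simp⟩
      · rintro ⟨M, hM⟩
        split_ifs at hM with h
        exact (Option.some.inj hM).symm
  | pair _ _ ih₁ ih₂ =>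
    rename_i f h _ _
    obtain ⟨F, hF, mF, eF⟩ := ih₁
    obtain ⟨H, hH, mH, eH⟩ := ih₂
    refine ⟨fun ρ n => (F ρ n).bind fun a => (H ρ n).map fun b => Nat.pair a b, ?_, ?_, ?_⟩
    · refine Partrec.bind hF ?_
      refine Partrec.map (hH.comp (Computable.fst.comp Computable.fst)
        (Computable.snd.comp Computable.fst)) ?_
      exact (Primrec₂.natPair.to_comp.comp (Computable.snd.comp Computable.fst)
        Computable.snd).to₂
    · intro ρ ρ' n v hp hv
      simp only [Part.mem_bind_iff, Part.mem_map_iff] at hv ⊢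
      obtain ⟨a, ha, b, hb, rfl⟩ := hv
      exact ⟨a, mF _ _ _ _ hp ha, b, mH _ _ _ _ hp hb, rfl⟩
    · intro n v
      simp only [Part.mem_bind_iff, Part.mem_map_iff, Seq.seq, Part.map_eq_map, eF, eH]
      constructor
      · rintro ⟨y, ⟨a, ⟨M₁, h₁⟩, rfl⟩, b, ⟨M₂, h₂⟩, rfl⟩
        exact ⟨max M₁ M₂, a, mF _ _ _ _ (seg_prefix O (le_max_left _ _)) h₁, b,
          mH _ _ _ _ (seg_prefix O (le_max_right _ _)) h₂, rfl⟩
      · rintro ⟨M, a, ha, b, hb, rfl⟩
        exact ⟨_, ⟨a, ⟨M, ha⟩, rfl⟩, b, ⟨M, hb⟩, rfl⟩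
  | comp _ _ ih₁ ih₂ =>
    rename_i f h _ _
    obtain ⟨F, hF, mF, eF⟩ := ih₁
    obtain ⟨H, hH, mH, eH⟩ := ih₂
    refine ⟨fun ρ n => (H ρ n).bind fun a => F ρ a, ?_, ?_, ?_⟩
    · refine Partrec.bind hH ?_
      exact hF.comp (Computable.fst.comp Computable.fst) Computable.snd
    · intro ρ ρ' n v hp hv
      simp only [Part.mem_bind_iff] at hv ⊢
      obtain ⟨a, ha, hb⟩ := hv
      exact ⟨a, mH _ _ _ _ hp ha, mF _ _ _ _ hp hb⟩
    · intro n v
      simp only [Part.bind_eq_bind, Part.mem_bind_iff, eF, eH]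
      constructor
      · rintro ⟨a, ⟨M₁, h₁⟩, ⟨M₂, h₂⟩⟩
        exact ⟨max M₁ M₂, a, mH _ _ _ _ (seg_prefix O (le_max_left _ _)) h₁,
          mF _ _ _ _ (seg_prefix O (le_max_right _ _)) h₂⟩
      · rintro ⟨M, a, ha, hb⟩
        exact ⟨a, ⟨M, ha⟩, ⟨M, hb⟩⟩
  | prec _ _ ih₁ ih₂ =>
    rename_i f h _ _
    obtain ⟨F, hF, mF, eF⟩ := ih₁
    obtain ⟨H, hH, mH, eH⟩ := ih₂
    let K : List ℕ → ℕ → ℕ →. ℕ := fun ρ a n =>
      n.rec (F ρ a) (fun y IH => IH.bind fun i => H ρ (Nat.pair a (Nat.pair y i)))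
    have mK : ∀ ρ ρ' a n v, ρ <+: ρ' → v ∈ K ρ a n → v ∈ K ρ' a n := by
      intro ρ ρ' a n
      induction n with
      | zero => intro v hp hv; exact mF _ _ _ _ hp hv
      | succ n ih =>
        intro v hp hv
        simp only [K, Part.mem_bind_iff] at hv ⊢
        obtain ⟨i, hi, hv⟩ := hv
        exact ⟨i, ih i hp hi, mH _ _ _ _ hp hv⟩
    refine ⟨fun ρ p => K ρ p.unpair.1 p.unpair.2, ?_, ?_, ?_⟩
    · refine Partrec.nat_rec (f := fun x : List ℕ × ℕ => x.2.unpair.2)
        (g := fun x => F x.1 x.2.unpair.1)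
        (h := fun x (y : ℕ × ℕ) => H x.1 (Nat.pair x.2.unpair.1 (Nat.pair y.1 y.2)))
        (Computable.snd.comp (Computable.unpair.comp Computable.snd))
        (hF.comp Computable.fst (Computable.fst.comp (Computable.unpair.comp Computable.snd))) ?_
      refine hH.comp (Computable.fst.comp Computable.fst) ?_
      refine Primrec₂.natPair.to_comp.comp
        (Computable.fst.comp (Computable.unpair.comp (Computable.snd.comp Computable.fst))) ?_
      exact Primrec₂.natPair.to_comp.comp (Computable.fst.comp Computable.snd)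
        (Computable.snd.comp Computable.snd)
    · intro ρ ρ' n v hp hv
      exact mK _ _ _ _ _ hp hv
    · intro p v
      have key : ∀ (a n v : ℕ), v ∈ (n.rec (f a) (fun y IH => IH.bind fun i =>
          h (Nat.pair a (Nat.pair y i))) : Part ℕ) ↔ ∃ M, v ∈ K (seg O M) a n := by
        intro a n
        induction n with
        | zero => intro v; exact eF a v
        | succ n ih =>
          intro v
          simp only [K, Part.mem_bind_iff]
          constructor
          · rintro ⟨i, hi, hv⟩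
            obtain ⟨M₁, h₁⟩ := (ih i).1 hi
            obtain ⟨M₂, h₂⟩ := (eH _ v).1 hv
            exact ⟨max M₁ M₂, i, mK _ _ _ _ _ (seg_prefix O (le_max_left _ _)) h₁,
              mH _ _ _ _ (seg_prefix O (le_max_right _ _)) h₂⟩
          · rintro ⟨M, i, hi, hv⟩
            exact ⟨i, (ih i).2 ⟨M, hi⟩, (eH _ v).2 ⟨M, hv⟩⟩
      exact key _ _ v
  | rfind _ ih₁ =>
    rename_i f _
    obtain ⟨F, hF, mF, eF⟩ := ih₁
    refine ⟨fun ρ a => Nat.rfind fun n => (F ρ (Nat.pair a n)).map fun m => decide (m = 0),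
      ?_, ?_, ?_⟩
    · refine Partrec.rfind ?_
      refine Partrec.map (hF.comp (Computable.fst.comp Computable.fst)
        (Primrec₂.natPair.to_comp.comp (Computable.snd.comp Computable.fst)
          Computable.snd)) ?_
      exact (Primrec.eq.decide.comp Primrec.snd (Primrec.const 0)).to_comp
    · intro ρ ρ' a v hp hv
      rw [Nat.mem_rfind] at hv ⊢
      refine ⟨?_, fun {m} hm => ?_⟩
      · obtain ⟨x, hx, e⟩ := (Part.mem_map_iff _).1 hv.1
        exact (Part.mem_map_iff _).2 ⟨x, mF _ _ _ _ hp hx, e⟩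
      · obtain ⟨x, hx, e⟩ := (Part.mem_map_iff _).1 (hv.2 hm)
        exact (Part.mem_map_iff _).2 ⟨x, mF _ _ _ _ hp hx, e⟩
    · intro a v
      constructor
      · intro hv
        have hv' : (v ∈ Nat.rfind fun n => (f (Nat.pair a n)).map fun m => decide (m = 0)) := hv
        rw [Nat.mem_rfind] at hv'
        have h1 : ∃ M₀, ∀ m < v, ∀ M ≥ M₀, ∃ x ∈ F (seg O M) (Nat.pair a m), x ≠ 0 := by
          have : ∀ m < v, ∃ M₀, ∀ M ≥ M₀, ∃ x ∈ F (seg O M) (Nat.pair a m), x ≠ 0 := by
            intro m hm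
            obtain ⟨x, hx, e⟩ := (Part.mem_map_iff _).1 (hv'.2 hm)
            obtain ⟨M, hM⟩ := (eF _ x).1 hx
            exact ⟨M, fun M' hM' => ⟨x, mF _ _ _ _ (seg_prefix O hM') hM, by simpa using e⟩⟩
          choose! M₀ hM₀ using this
          refine ⟨(Finset.range v).sup M₀, fun m hm M hM => hM₀ m hm M ?_⟩
          exact le_trans (Finset.le_sup (f := M₀) (Finset.mem_range.2 hm)) hM
        obtain ⟨M₀, h1⟩ := h1
        obtain ⟨x, hx, e⟩ := (Part.mem_map_iff _).1 hv'.1
        obtain ⟨M₁, hM₁⟩ := (eF _ x).1 hx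
        refine ⟨max M₀ M₁, ?_⟩
        rw [Nat.mem_rfind]
        refine ⟨(Part.mem_map_iff _).2
          ⟨x, mF _ _ _ _ (seg_prefix O (le_max_right _ _)) hM₁, e⟩, fun {m} hm => ?_⟩
        obtain ⟨x', hx', e'⟩ := h1 m hm _ (le_max_left M₀ M₁)
        exact (Part.mem_map_iff _).2 ⟨x', hx', by simpa using e'⟩
      · rintro ⟨M, hM⟩
        show v ∈ Nat.rfind fun n => (f (Nat.pair a n)).map fun m => decide (m = 0)
        rw [Nat.mem_rfind] at hM ⊢
        refine ⟨?_, fun {m} hm => ?_⟩
        · obtain ⟨x, hx, e⟩ := (Part.mem_map_iff _).1 hM.1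
          exact (Part.mem_map_iff _).2 ⟨x, (eF _ _).2 ⟨M, hx⟩, e⟩
        · obtain ⟨x, hx, e⟩ := (Part.mem_map_iff _).1 (hM.2 hm)
          exact (Part.mem_map_iff _).2 ⟨x, (eF _ _).2 ⟨M, hx⟩, e⟩

end Pool.Agent.Lib.MP_f26228_lc
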