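import Pool.Agent.Lib.MP_f26228_lc.Strategy
import Pool.Agent.Lib.MP_f26228_lc.Use

set_option autoImplicit false

/-!
The forcing construction of the function `A`.
-/

namespace Pool.Agent.Lib.MP_f26228_lc

open Nat.Partrec (Code)
open Nat.Partrec.Code Encodable Denumerable

/-- forcing conditions -/
structure Cond where
  σ : List ℕ
  T : List ℕ → Prop
  S : List ℕ → Prop
  k : ℕ
  hT : REPred T
  hS : REPred S
  hσ : T σ
  small : ¬ Big k S σ
  perf : ∀ τ, T τ → ∀ k', Big k' (fun ρ => S ρ ∨ (T ρ ∧ (τ <+: ρ ∧ τ ≠ ρ))) τ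

theorem Cond.lengthen (p : Cond) : ∃ τ, p.T τ ∧ (p.σ <+: τ ∧ p.σ ≠ τ) ∧ ¬ Big p.k p.S τ := by
  by_contra hcon
  push Not at hcon
  apply p.small
  refine (p.perf p.σ p.hσ p.k).trans fun τ _ hτ => ?_
  rcases hτ with hτ | ⟨h1, h2⟩
  · exact .leaf hτ
  · exact hcon τ h1 h2

theorem strict_trans {a b c : List ℕ} (h1 : a <+: b ∧ a ≠ b) (h2 : b <+: c) :
    a <+: c ∧ a ≠ c := by
  refine ⟨h1.1.trans h2, ?_⟩
  rintro rfl
  exact h1.2 (h1.1.eq_of_length (le_antisymm h1.1.length_le h2.length_le))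

/-- deciding one requirement -/
theorem Cond.decide {h : ℕ → ℕ} (hh : Primrec h) (hpos : ∀ n, 0 < h n) (p : Cond)
    {R : List ℕ → ℕ → ℕ → Prop} (hR : REPred (fun x : List ℕ × ℕ × ℕ => R x.1 x.2.1 x.2.2)) :
    ∃ q : Cond, (p.σ <+: q.σ ∧ p.σ ≠ q.σ) ∧ (∀ ρ, q.T ρ → p.T ρ) ∧ (∀ ρ, p.S ρ → q.S ρ) ∧
      ((∃ n, ∀ ρ, q.T ρ → (q.σ <+: ρ ∧ q.σ ≠ ρ) → (∃ v < h n, R ρ n v) → q.S ρ) ∨
        ∃ i, ∀ N, ∃ E : List (List ℕ), ∀ τ, q.T τ → τ ∉ E → ∃ n ≥ N, ∃ v ∈ Psi i n, R τ n v) := by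
  obtain ⟨τ, hτ1, hτ2, hτ3⟩ := p.lengthen
  rcases strategy hh p.hT p.hS hR hτ1 with ⟨τ', n, k', h1, h2, h3⟩ | ⟨T', i, h1, h2, h3, h4, h5⟩
  · let S' : List ℕ → Prop := fun ρ => p.S ρ ∨ ∃ v < h n, p.T ρ ∧ (τ' <+: ρ ∧ τ' ≠ ρ) ∧ R ρ n v
    have hS' : REPred S' := by
      refine re_or p.hS ?_
      have : REPred (fun ρ => ∃ v : ℕ, v < h n ∧ p.T ρ ∧ (τ' <+: ρ ∧ τ' ≠ ρ) ∧ R ρ n v) := by
        refine re_exists (p := fun (ρ : List ℕ) (v : ℕ) =>
          v < h n ∧ p.T ρ ∧ (τ' <+: ρ ∧ τ' ≠ ρ) ∧ R ρ n v) ?_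
        refine re_and ?_ (re_and ?_ (re_and ?_ ?_))
        · exact re_of_primrec (Primrec.nat_lt.comp Primrec.snd (Primrec.const _))
        · exact re_comp p.hT Computable.fst
        · refine re_of_primrec (PrimrecPred.and ?_ ?_)
          · refine PrimrecPred.of_eq (p := fun w : List ℕ × ℕ => τ' = w.1.take τ'.length) ?_ ?_
            · exact Primrec.eq.comp (Primrec.const _)
                (Primrec.list_take.comp (Primrec.const _) Primrec.fst)
            · intro w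
              exact List.prefix_iff_eq_take.symm
          · exact (Primrec.eq.comp (Primrec.const _) Primrec.fst).not
        · exact re_comp hR (f := fun w : List ℕ × ℕ => (w.1, n, w.2))
            (Primrec.fst.pair ((Primrec.const n).pair Primrec.snd)).to_comp
      exact this
    refine ⟨⟨τ', p.T, S', h n * k', p.hT, hS', h1, ?_, ?_⟩, ?_, ?_, ?_, ?_⟩
    · intro hb
      obtain ⟨v, hv, hb'⟩ := Big.pigeon (X := fun v ρ => p.T ρ ∧ (τ' <+: ρ ∧ τ' ≠ ρ) ∧ R ρ n v)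
        (hpos n) hb
      exact h3 v hv hb'
    · intro τ₁ hτ₁ k₁
      exact (p.perf τ₁ hτ₁ k₁).mono_set fun ρ hρ => hρ.imp Or.inl id
    · exact strict_trans hτ2 h2
    · exact fun ρ hρ => hρ
    · exact fun ρ hρ => Or.inl hρ
    · left
      refine ⟨n, fun ρ hρ1 hρ2 hρ3 => Or.inr ?_⟩
      obtain ⟨v, hv, hR'⟩ := hρ3
      exact ⟨v, hv, hρ1, hρ2, hR'⟩
  · refine ⟨⟨τ, T', p.S, p.k, h1, p.hS, h2, hτ3, h4⟩, hτ2, fun ρ hρ => (h3 ρ hρ).1,
      fun ρ hρ => hρ, Or.inr ⟨i, h5⟩⟩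

/-- an enumeration of all r.e. relations -/
def Rel (e : ℕ) (ρ : List ℕ) (n v : ℕ) : Prop := (eval (ofNat Code e) (encode (ρ, n, v))).Dom

theorem Rel.re (e : ℕ) : REPred (fun x : List ℕ × ℕ × ℕ => Rel e x.1 x.2.1 x.2.2) := by
  have h : Partrec (fun x : List ℕ × ℕ × ℕ => eval (ofNat Code e) (encode x)) :=
    eval_part.comp (Computable.const _) Computable.encode
  exact h.dom_re

theorem Rel.exists_index {R : List ℕ → ℕ → ℕ → Prop}
    (hR : REPred (fun x : List ℕ × ℕ × ℕ => R x.1 x.2.1 x.2.2)) :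
    ∃ e, ∀ ρ n v, Rel e ρ n v ↔ R ρ n v := by
  obtain ⟨c, hc⟩ := Code.exists_code.1 hR
  refine ⟨encode c, fun ρ n v => ?_⟩
  unfold Rel
  rw [Denumerable.ofNat_encode, hc]
  simp [Part.assert]

theorem seg_of_chain (s : ℕ → List ℕ) (h1 : ∀ e, s e <+: s (e + 1)) (h2 : ∀ e, e ≤ (s e).length) :
    ∃ A : ℕ → ℕ, ∀ e, seg A (s e).length = s e := by
  have hmono : ∀ a b, a ≤ b → s a <+: s b := by
    intro a b hab
    induction b, hab using Nat.le_induction with
    | base => exact List.prefix_refl _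
    | succ b _ ih => exact ih.trans (h1 b)
  refine ⟨fun m => ((s (m + 1))[m]?).getD 0, fun e => ?_⟩
  apply List.ext_getElem?
  intro x
  rw [seg_getElem?]
  split_ifs with hx
  · obtain ⟨t1, ht1⟩ := hmono e (max e (x + 1)) (le_max_left _ _)
    obtain ⟨t2, ht2⟩ := hmono (x + 1) (max e (x + 1)) (le_max_right _ _)
    have hx2 : x < (s (x + 1)).length := lt_of_lt_of_le (Nat.lt_succ_self x) (h2 (x + 1))
    have e1 : (s e)[x]? = (s (max e (x + 1)))[x]? := by
      rw [← ht1, List.getElem?_append_left hx]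
    have e2 : (s (x + 1))[x]? = (s (max e (x + 1)))[x]? := by
      rw [← ht2, List.getElem?_append_left hx2]
    rw [e1, ← e2, List.getElem?_eq_getElem hx2]
    rfl
  · rw [List.getElem?_eq_none (not_lt.1 hx)]

theorem exists_generic {h : ℕ → ℕ} (hh : Primrec h) (hpos : ∀ n, 0 < h n)
    {Proh : ℕ → ℕ → Prop} (hP : REPred (fun x : ℕ × ℕ => Proh x.1 x.2))
    (hcard : ∀ m (F : Finset ℕ), (∀ a ∈ F, Proh m a) → F.card < 2 ^ m) :
    ∃ A : ℕ → ℕ, (∀ m, ¬ Proh m (A m)) ∧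
      ∀ R : List ℕ → ℕ → ℕ → Prop, REPred (fun x : List ℕ × ℕ × ℕ => R x.1 x.2.1 x.2.2) →
        (∀ n, ∃ v < h n, ∃ l, ∀ l' ≥ l, R (seg A l') n v) →
        ∃ i, ∀ N, ∃ n ≥ N, ∃ v ∈ Psi i n, ∃ l, R (seg A l) n v := by
  classical
  -- initial condition
  let S₀ : List ℕ → Prop := fun ρ => ∃ m a : ℕ, ρ[m]? = some a ∧ Proh m a
  have hS₀ : REPred S₀ := by
    refine re_exists (p := fun (ρ : List ℕ) (m : ℕ) => ∃ a : ℕ, ρ[m]? = some a ∧ Proh m a) ?_
    refine re_exists (p := fun (x : List ℕ × ℕ) (a : ℕ) => x.1[x.2]? = some a ∧ Proh x.2 a) ?_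
    refine re_and ?_ ?_
    · refine re_of_primrec ?_
      exact Primrec.eq.comp (Primrec.list_getElem?.comp (Primrec.fst.comp Primrec.fst)
        (Primrec.snd.comp Primrec.fst)) (Primrec.option_some.comp Primrec.snd)
    · exact re_comp hP (f := fun x : (List ℕ × ℕ) × ℕ => (x.1.2, x.2))
        ((Primrec.snd.comp Primrec.fst).pair Primrec.snd).to_comp
  have hsmall : ∀ τ, Big 1 S₀ τ → S₀ τ := by
    intro τ hb
    induction hb with
    | leaf hx => exact hx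
    | @node τ F hF _ ih =>
      by_contra hcon
      refine absurd (hcard τ.length F fun a ha => ?_) (not_lt.2 (by simpa using hF))
      obtain ⟨m, b, hm, hb⟩ := ih a ha
      rcases lt_trichotomy m τ.length with h1 | h1 | h1
      · rw [List.getElem?_append_left h1] at hm
        exact absurd ⟨m, b, hm, hb⟩ hcon
      · subst h1
        simp only [List.getElem?_append_right (le_refl _), Nat.sub_self,
          List.getElem?_cons_zero, Option.some.injEq] at hm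
        rwa [hm]
      · rw [List.getElem?_eq_none (by simp; omega)] at hm
        cases hm
  let p₀ : Cond :=
    { σ := []
      T := fun _ => True
      S := S₀
      k := 1
      hT := re_of_primrec (PrimrecPred.of_eq (p := fun ρ : List ℕ => ρ = ρ)
        (Primrec.eq.comp Primrec.id Primrec.id) (by simp))
      hS := hS₀
      hσ := trivial
      small := by
        intro hb
        obtain ⟨m, a, hm, -⟩ := hsmall _ hb
        simp at hm
      perf := by
        intro τ _ k'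
        refine .node (Finset.range (k' * 2 ^ τ.length)) (by simp) fun a _ => .leaf (Or.inr ?_)
        exact ⟨trivial, List.prefix_append _ _, by simp⟩ }
  have hstep : ∀ (e : ℕ) (p : Cond), ∃ q : Cond, (p.σ <+: q.σ ∧ p.σ ≠ q.σ) ∧
      (∀ ρ, q.T ρ → p.T ρ) ∧ (∀ ρ, p.S ρ → q.S ρ) ∧
      ((∃ n, ∀ ρ, q.T ρ → (q.σ <+: ρ ∧ q.σ ≠ ρ) → (∃ v < h n, Rel e ρ n v) → q.S ρ) ∨
        ∃ i, ∀ N, ∃ E : List (List ℕ), ∀ τ, q.T τ → τ ∉ E →
          ∃ n ≥ N, ∃ v ∈ Psi i n, Rel e τ n v) :=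
    fun e p => p.decide hh hpos (Rel.re e)
  choose nx hn1 hn2 hn3 hn4 using hstep
  let C : ℕ → Cond := fun e => Nat.rec p₀ (fun e p => nx e p) e
  have hC : ∀ e, C (e + 1) = nx e (C e) := fun e => rfl
  have c1 : ∀ e, (C e).σ <+: (C (e + 1)).σ ∧ (C e).σ ≠ (C (e + 1)).σ := fun e => hn1 e (C e)
  have c2 : ∀ e ρ, (C (e + 1)).T ρ → (C e).T ρ := fun e => hn2 e (C e)
  have c3 : ∀ e ρ, (C e).S ρ → (C (e + 1)).S ρ := fun e => hn3 e (C e)
  have c4 : ∀ e, (∃ n, ∀ ρ, (C (e + 1)).T ρ → ((C (e + 1)).σ <+: ρ ∧ (C (e + 1)).σ ≠ ρ) →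
      (∃ v < h n, Rel e ρ n v) → (C (e + 1)).S ρ) ∨
        ∃ i, ∀ N, ∃ E : List (List ℕ), ∀ τ, (C (e + 1)).T τ → τ ∉ E →
          ∃ n ≥ N, ∃ v ∈ Psi i n, Rel e τ n v := fun e => hn4 e (C e)
  have hlen : ∀ e, (C e).σ.length < (C (e + 1)).σ.length := by
    intro e
    refine lt_of_le_of_ne (c1 e).1.length_le fun h => (c1 e).2 ((c1 e).1.eq_of_length h)
  have hlen' : StrictMono fun e => (C e).σ.length := strictMono_nat_of_lt_succ hlen
  have hσmono : ∀ a b, a ≤ b → (C a).σ <+: (C b).σ := by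
    intro a b hab
    induction b, hab using Nat.le_induction with
    | base => exact List.prefix_refl _
    | succ b _ ih => exact ih.trans (c1 b).1
  have hTmono : ∀ a b, a ≤ b → ∀ ρ, (C b).T ρ → (C a).T ρ := by
    intro a b hab
    induction b, hab using Nat.le_induction with
    | base => exact fun ρ h => h
    | succ b _ ih => exact fun ρ h => ih ρ (c2 b ρ h)
  have hSmono : ∀ a b, a ≤ b → ∀ ρ, (C a).S ρ → (C b).S ρ := by
    intro a b hab
    induction b, hab using Nat.le_induction with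
    | base => exact fun ρ h => h
    | succ b _ ih => exact fun ρ h => c3 b ρ (ih ρ h)
  obtain ⟨A, hA⟩ := seg_of_chain (fun e => (C e).σ) (fun e => (c1 e).1)
    (fun e => hlen'.id_le e)
  have hA' : ∀ e, seg A (C e).σ.length = (C e).σ := hA
  have hnS : ∀ e, ¬ (C e).S (C e).σ := fun e h => (C e).small (.leaf h)
  refine ⟨A, ?_, ?_⟩
  · intro m hm
    apply hnS (m + 1)
    apply hSmono 0 (m + 1) (Nat.zero_le _)
    refine ⟨m, A m, ?_, hm⟩
    rw [← hA' (m + 1), seg_getElem?, if_pos (lt_of_lt_of_le (Nat.lt_succ_self m)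
      (hlen'.id_le (m + 1)))]
  · intro R hR hlim
    obtain ⟨e, he⟩ := Rel.exists_index hR
    rcases c4 e with ⟨n, hn⟩ | ⟨i, hi⟩
    · exfalso
      obtain ⟨v, hv, l, hl⟩ := hlim n
      let j := max (e + 2) l
      have hj1 : e + 1 < j := lt_of_lt_of_le (Nat.lt_succ_self _) (le_max_left _ _)
      have hj2 : l ≤ (C j).σ.length := le_trans (le_max_right (e + 2) l) (hlen'.id_le j)
      apply hnS j
      apply hSmono (e + 1) j hj1.le
      refine hn _ (hTmono (e + 1) j hj1.le _ (C j).hσ) ⟨hσmono _ _ hj1.le, ?_⟩ ⟨v, hv, ?_⟩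
      · intro heq
        have := hlen' hj1
        simp only [heq, lt_irrefl] at this
      · rw [he, ← hA' j]
        exact hl _ hj2
    · refine ⟨i, fun N => ?_⟩
      obtain ⟨E, hE⟩ := hi N
      -- a late enough initial segment is not in E
      have hlate : ∃ j, e + 1 ≤ j ∧ (C j).σ ∉ E := by
        by_contra hcon
        push Not at hcon
        have hb : ∀ ρ ∈ E, ρ.length ≤ (E.map List.length).sum := fun ρ hρ =>
          List.le_sum_of_mem (List.mem_map.2 ⟨ρ, hρ, rfl⟩)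
        let j := max (e + 1) ((E.map List.length).sum + 1)
        have h1 := hb _ (hcon j (le_max_left _ _))
        have h2 : j ≤ (C j).σ.length := hlen'.id_le j
        have h3 : (E.map List.length).sum + 1 ≤ j := le_max_right _ _
        omega
      obtain ⟨j, hj1, hj2⟩ := hlate
      obtain ⟨n, hn, v, hv, hrel⟩ := hE _ (hTmono (e + 1) j hj1 _ (C j).hσ) hj2
      refine ⟨n, hn, v, hv, (C j).σ.length, ?_⟩
      rw [hA' j]
      exact (he _ _ _).1 hrel

end Pool.Agent.Lib.MP_f26228_lc
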