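import Pool.Agent.Lib.MP_f26228_lc.Val
import Pool.Agent.Lib.MP_f26228_lc.Coin

set_option autoImplicit false

/-!
The prohibited values, and the failure of property (W).
-/

namespace Pool.Agent.Lib.MP_f26228_lc

open Nat.Partrec (Code)
open Nat.Partrec.Code Encodable Denumerable MeasureTheory ENNReal

/-- the string coded by the second component of `m` -/
def chi (m : ℕ) : List Bool := (decode (α := List Bool) m.unpair.2).getD []

/-- the extension number `a` of `chi m` -/
def tau (m a : ℕ) : List Bool := chi m ++ ((List.range a).map (fun _ => false) ++ [true])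

theorem tau_primrec : Primrec (fun z : ℕ × ℕ => tau z.1 z.2) := by
  unfold tau chi
  refine Primrec.list_append.comp ?_ (Primrec.list_append.comp ?_ (Primrec.const _))
  · exact Primrec.option_getD.comp (Primrec.decode.comp
      (Primrec.snd.comp (Primrec.unpair.comp Primrec.fst))) (Primrec.const _)
  · exact Primrec.list_map (Primrec.list_range.comp Primrec.snd) (Primrec.const false).to₂

/-- `ρ` computes the string `τ` by the functional `c` -/
def Comp (c : Code) (ρ : List ℕ) (τ : List Bool) : Prop :=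
  (List.range τ.length).map (val c ρ) = τ.map (fun b => some b.toNat)

instance (c : Code) (ρ : List ℕ) (τ : List Bool) : Decidable (Comp c ρ τ) := by
  unfold Comp; infer_instance

theorem comp_iff {c : Code} {ρ : List ℕ} {τ : List Bool} :
    Comp c ρ τ ↔ ∀ x b, τ[x]? = some b → val c ρ x = some b.toNat := by
  unfold Comp
  constructor
  · intro h x b hx
    have hlt : x < τ.length := (List.getElem?_eq_some_iff.1 hx).1
    have := congrArg (fun l => l[x]?) h
    simp only [List.getElem?_map, List.getElem?_range hlt, Option.map_some, hx,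
      Option.some.injEq] at this
    exact this
  · intro h
    apply List.ext_getElem?
    intro x
    rw [List.getElem?_map, List.getElem?_map]
    by_cases hlt : x < τ.length
    · rw [List.getElem?_range hlt, List.getElem?_eq_getElem hlt]
      simp only [Option.map_some, Option.some.injEq]
      exact h x _ (List.getElem?_eq_getElem hlt)
    · rw [List.getElem?_eq_none (by simpa using hlt), List.getElem?_eq_none (by simpa using hlt)]
      rfl

theorem comp_mono {c : Code} {ρ ρ' : List ℕ} {τ : List Bool} (h : ρ <+: ρ')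
    (hc : Comp c ρ τ) : Comp c ρ' τ := by
  rw [comp_iff] at *
  exact fun x b hx => val_mono h (hc x b hx)

theorem comp_primrec : PrimrecRel (fun (ρ : List ℕ) (z : ℕ × ℕ) =>
    Comp (ofNat Code z.1.unpair.1) ρ (tau z.1 z.2)) := by
  unfold Comp
  have ht : Primrec (fun w : List ℕ × (ℕ × ℕ) => tau w.2.1 w.2.2) :=
    tau_primrec.comp Primrec.snd
  refine Primrec.eq.comp ?_ ?_
  · refine Primrec.list_map (Primrec.list_range.comp (Primrec.list_length.comp ht)) ?_
    exact val_primrec.comp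
      (g := fun u : (List ℕ × (ℕ × ℕ)) × ℕ => ((ofNat Code u.1.2.1.unpair.1, u.1.1), u.2))
      ((((Primrec.ofNat Code).comp (Primrec.fst.comp (Primrec.unpair.comp
        (Primrec.fst.comp (Primrec.snd.comp Primrec.fst))))).pair
        (Primrec.fst.comp Primrec.fst)).pair Primrec.snd)
  · exact Primrec.list_map ht ((Primrec.dom_bool (fun b => some b.toNat)).comp Primrec.snd).to₂

/-- number of strings of length `M` computing `tau m a` -/
def cntc (m a M : ℕ) : ℕ :=
  ((allStr M).filter (fun ρ => Comp (ofNat Code m.unpair.1) ρ (tau m a))).length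

theorem cntc_primrec : Primrec (fun z : (ℕ × ℕ) × ℕ => cntc z.1.1 z.1.2 z.2) := by
  unfold cntc
  exact Primrec.list_length.comp
    ((PrimrecRel.listFilter comp_primrec).comp (allStr_primrec.comp Primrec.snd) Primrec.fst)

/-- the prohibited values -/
def Proh (m a : ℕ) : Prop := ∃ M, 2 ^ M < cntc m a M * 2 ^ m

theorem proh_re : REPred (fun x : ℕ × ℕ => Proh x.1 x.2) := by
  unfold Proh
  refine re_exists (p := fun (x : ℕ × ℕ) (M : ℕ) => 2 ^ M < cntc x.1 x.2 M * 2 ^ x.1) ?_
  have hpow : Primrec₂ (fun a b : ℕ => a ^ b) := Primrec₂.unpaired'.1 Nat.Primrec.pow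
  refine re_of_primrec (Primrec.nat_lt.comp ?_ (Primrec.nat_mul.comp ?_ ?_))
  · exact hpow.comp (Primrec.const 2) Primrec.snd
  · exact cntc_primrec
  · exact hpow.comp (Primrec.const 2) (Primrec.fst.comp Primrec.fst)

/-- oracles computing `τ` -/
def U (c : Code) (τ : List Bool) : Set (ℕ → Bool) := {B | ∃ M, Comp c (seg (nat B) M) τ}

theorem U_eq (c : Code) (τ : List Bool) : U c τ = ⋃ M, {B | Comp c (seg (nat B) M) τ} := by
  ext B; simp [U]

theorem U_meas (c : Code) (τ : List Bool) : MeasurableSet (U c τ) := by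
  rw [U_eq]
  exact MeasurableSet.iUnion fun M => measurable_seg M (fun ρ => Comp c ρ τ)

theorem mu_comp (m a M : ℕ) :
    mu {B | Comp (ofNat Code m.unpair.1) (seg (nat B) M) (tau m a)} = cntc m a M * 2⁻¹ ^ M :=
  mu_event M (fun ρ => Comp (ofNat Code m.unpair.1) ρ (tau m a))

theorem two_pow_mul_inv (m : ℕ) : (2 : ℝ≥0∞) ^ m * 2⁻¹ ^ m = 1 := by
  rw [← mul_pow, ENNReal.mul_inv_cancel (by norm_num) (by norm_num), one_pow]

theorem mu_U_le {m a : ℕ} (h : ¬ Proh m a) :
    mu (U (ofNat Code m.unpair.1) (tau m a)) ≤ 2⁻¹ ^ m := by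
  rw [U_eq, Monotone.measure_iUnion]
  · refine iSup_le fun M => ?_
    rw [mu_comp]
    have h1 : cntc m a M * 2 ^ m ≤ 2 ^ M := by
      by_contra hcon
      exact h ⟨M, not_le.1 hcon⟩
    have h2 : (cntc m a M : ℝ≥0∞) * 2 ^ m ≤ 2 ^ M := by exact_mod_cast h1
    calc (cntc m a M : ℝ≥0∞) * 2⁻¹ ^ M
        = (cntc m a M : ℝ≥0∞) * (2 ^ m * 2⁻¹ ^ m) * 2⁻¹ ^ M := by
          rw [two_pow_mul_inv, mul_one]
      _ = ((cntc m a M : ℝ≥0∞) * 2 ^ m) * (2⁻¹ ^ m * 2⁻¹ ^ M) := by ring
      _ ≤ 2 ^ M * (2⁻¹ ^ m * 2⁻¹ ^ M) := by gcongr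
      _ = (2 ^ M * 2⁻¹ ^ M) * 2⁻¹ ^ m := by ring
      _ = 2⁻¹ ^ m := by rw [two_pow_mul_inv, one_mul]
  · intro M M' hM B hB
    exact comp_mono (seg_prefix _ hM) hB

theorem lt_mu_U {m a : ℕ} (h : Proh m a) :
    2⁻¹ ^ m < mu (U (ofNat Code m.unpair.1) (tau m a)) := by
  obtain ⟨M, hM⟩ := h
  have h1 : mu {B | Comp (ofNat Code m.unpair.1) (seg (nat B) M) (tau m a)} ≤
      mu (U (ofNat Code m.unpair.1) (tau m a)) := by
    refine measure_mono fun B hB => ?_
    exact ⟨M, hB⟩
  refine lt_of_lt_of_le ?_ h1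
  rw [mu_comp]
  have h2 : (2 : ℝ≥0∞) ^ M < (cntc m a M : ℝ≥0∞) * 2 ^ m := by exact_mod_cast hM
  have hne : (2⁻¹ : ℝ≥0∞) ^ m * 2⁻¹ ^ M ≠ 0 := by
    simp
  have hnt : (2⁻¹ : ℝ≥0∞) ^ m * 2⁻¹ ^ M ≠ ∞ := by
    refine ENNReal.mul_ne_top ?_ ?_ <;> exact ENNReal.pow_ne_top (by norm_num)
  have h3 := (ENNReal.mul_lt_mul_iff_left hne hnt).2 h2
  calc (2⁻¹ : ℝ≥0∞) ^ m = (2 ^ M * 2⁻¹ ^ M) * 2⁻¹ ^ m := by rw [two_pow_mul_inv, one_mul]
    _ = 2 ^ M * (2⁻¹ ^ m * 2⁻¹ ^ M) := by ring
    _ < (cntc m a M : ℝ≥0∞) * 2 ^ m * (2⁻¹ ^ m * 2⁻¹ ^ M) := h3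
    _ = (cntc m a M : ℝ≥0∞) * (2 ^ m * 2⁻¹ ^ m) * 2⁻¹ ^ M := by ring
    _ = (cntc m a M : ℝ≥0∞) * 2⁻¹ ^ M := by rw [two_pow_mul_inv, mul_one]

theorem comp_inj {c : Code} {ρ : List ℕ} {m a b : ℕ} (ha : Comp c ρ (tau m a))
    (hb : Comp c ρ (tau m b)) : a = b := by
  have key : ∀ a b : ℕ, a < b → Comp c ρ (tau m a) → Comp c ρ (tau m b) → False := by
    intro a b hab ha hb
    rw [comp_iff] at ha hb
    have h1 := ha ((chi m).length + a) true (by
      unfold tau
      rw [List.getElem?_append_right (by omega), Nat.add_sub_cancel_left,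
        List.getElem?_append_right (by simp)]
      simp)
    have h2 := hb ((chi m).length + a) false (by
      unfold tau
      rw [List.getElem?_append_right (by omega), Nat.add_sub_cancel_left,
        List.getElem?_append_left (by simpa using hab), List.getElem?_map,
        List.getElem?_range hab]
      rfl)
    rw [h1] at h2
    simp at h2
  rcases lt_trichotomy a b with h | h | h
  · exact (key a b h ha hb).elim
  · exact h
  · exact (key b a h hb ha).elim

theorem proh_card (m : ℕ) (F : Finset ℕ) (hF : ∀ a ∈ F, Proh m a) : F.card < 2 ^ m := by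
  by_contra hcon
  have hge : 2 ^ m ≤ F.card := not_lt.1 hcon
  have hne : F.Nonempty := by
    rw [← Finset.card_pos]
    exact lt_of_lt_of_le (Nat.two_pow_pos m) hge
  have h1 : mu (⋃ a ∈ F, U (ofNat Code m.unpair.1) (tau m a)) =
      ∑ a ∈ F, mu (U (ofNat Code m.unpair.1) (tau m a)) := by
    refine measure_biUnion_finset ?_ fun a _ => U_meas _ _
    intro a _ b _ hab
    refine Set.disjoint_left.2 fun B h1 h2 => hab ?_
    obtain ⟨M, hM⟩ := h1
    obtain ⟨M', hM'⟩ := h2
    exact comp_inj (comp_mono (seg_prefix _ (le_max_left M M')) hM)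
      (comp_mono (seg_prefix _ (le_max_right M M')) hM')
  have h2 : mu (⋃ a ∈ F, U (ofNat Code m.unpair.1) (tau m a)) ≤ 1 := prob_le_one
  have h3 : ∑ _a ∈ F, (2⁻¹ : ℝ≥0∞) ^ m < ∑ a ∈ F, mu (U (ofNat Code m.unpair.1) (tau m a)) :=
    ENNReal.sum_lt_sum_of_nonempty hne fun a ha => lt_mu_U (hF a ha)
  rw [Finset.sum_const, nsmul_eq_mul, ← h1] at h3
  have h4 : (1 : ℝ≥0∞) ≤ (F.card : ℝ≥0∞) * 2⁻¹ ^ m := by
    have h5 : (2 : ℝ≥0∞) ^ m ≤ (F.card : ℝ≥0∞) := by exact_mod_cast hge
    calc (1 : ℝ≥0∞) = 2 ^ m * 2⁻¹ ^ m := (two_pow_mul_inv m).symm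
      _ ≤ _ := by gcongr
  exact absurd (lt_of_le_of_lt h4 (lt_of_lt_of_le h3 h2)) (lt_irrefl _)

/-- the graph of `A` as a set -/
def graph (A : ℕ → ℕ) (x : ℕ) : Bool := decide (A x.unpair.1 = x.unpair.2)

/-- the dense sets -/
def Wset (A : ℕ → ℕ) (c : Code) (k : ℕ) : Set (List Bool) :=
  {σ | ∃ m, k ≤ m ∧ ofNat Code m.unpair.1 = c ∧ σ = tau m (A m)}

theorem Wset_dense (A : ℕ → ℕ) (c : Code) (k : ℕ) (σ : List Bool) :
    ∃ τ ∈ Wset A c k, σ <+: τ := by
  let χ : List Bool := σ ++ List.replicate k false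
  let m := Nat.pair (encode c) (encode χ)
  have hchi : chi m = χ := by simp [chi, m]
  refine ⟨tau m (A m), ⟨m, ?_, ?_, rfl⟩, ?_⟩
  · refine le_trans ?_ (Nat.right_le_pair _ _)
    refine le_trans ?_ (length_le_encode χ)
    simp [χ]
  · simp [m]
  · unfold tau
    rw [hchi]
    exact (List.prefix_append _ _).trans (List.prefix_append _ _)

theorem Wset_re (A : ℕ → ℕ) (c : Code) (k : ℕ) :
    ∃ f : ℕ →. ℕ, TuringReducible f (fun n => Part.some (graph A n).toNat) ∧
      ∀ σ : List Bool, σ ∈ Wset A c k ↔ (f (encode σ)).Dom := by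
  classical
  let Q : ℕ → ℕ := fun w => if w.unpair.2 = 1 ∧ k ≤ w.unpair.1.unpair.2.unpair.1 ∧
    ofNat Code w.unpair.1.unpair.2.unpair.1.unpair.1 = c ∧
    decode (α := List Bool) w.unpair.1.unpair.1 =
      some (tau w.unpair.1.unpair.2.unpair.1 w.unpair.1.unpair.2.unpair.2) then 0 else 1
  have hQ : Primrec Q := by
    have hz : Primrec (fun w : ℕ => w.unpair.1) := Primrec.fst.comp Primrec.unpair
    have hx : Primrec (fun w : ℕ => w.unpair.1.unpair.2) :=
      Primrec.snd.comp (Primrec.unpair.comp hz)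
    have hm : Primrec (fun w : ℕ => w.unpair.1.unpair.2.unpair.1) :=
      Primrec.fst.comp (Primrec.unpair.comp hx)
    refine Primrec.ite ?_ (Primrec.const 0) (Primrec.const 1)
    refine PrimrecPred.and ?_ (PrimrecPred.and ?_ (PrimrecPred.and ?_ ?_))
    · exact Primrec.eq.comp (Primrec.snd.comp Primrec.unpair) (Primrec.const 1)
    · exact Primrec.nat_le.comp (Primrec.const k) hm
    · exact Primrec.eq.comp ((Primrec.ofNat Code).comp
        (Primrec.fst.comp (Primrec.unpair.comp hm))) (Primrec.const c)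
    · refine Primrec.eq.comp (Primrec.decode.comp
        (Primrec.fst.comp (Primrec.unpair.comp hz))) (Primrec.option_some.comp ?_)
      exact tau_primrec.comp (hm.pair (Primrec.snd.comp (Primrec.unpair.comp hx)))
  let O : ℕ →. ℕ := fun n => Part.some (graph A n).toNat
  let h : ℕ →. ℕ := fun z => Part.some (Q (Nat.pair z (graph A z.unpair.2).toNat))
  have hO : Nat.RecursiveIn {O} O := Nat.RecursiveIn.oracle _ rfl
  have hh : Nat.RecursiveIn {O} h := by
    have h1 : Nat.RecursiveIn {O} (fun n => Q n : ℕ →. ℕ) :=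
      (Primrec.nat_iff.1 hQ).recursiveIn
    have h2 : Nat.RecursiveIn {O} (fun n => (n : ℕ) : ℕ →. ℕ) :=
      (Nat.Primrec.id).recursiveIn
    refine (h1.comp (h2.pair (hO.comp Nat.RecursiveIn.right))).of_eq fun z => ?_
    simp [h, O, Seq.seq]
  refine ⟨fun y => Nat.rfind fun x => (fun v => decide (v = 0)) <$> h (Nat.pair y x), ?_, ?_⟩
  · exact RecursiveIn.iff_nat.2 (Nat.RecursiveIn.rfind hh)
  · intro σ
    rw [Nat.rfind_dom]
    constructor
    · rintro ⟨m, hk, hc, hσ⟩
      refine ⟨Nat.pair m (A m), ?_, fun {x} _ => ?_⟩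
      · simp [h, Q, graph, hk, hc, hσ]
      · simp [h]
    · rintro ⟨x, hx, -⟩
      simp only [h, Part.map_eq_map, Part.map_some, Part.mem_some_iff] at hx
      have hx' : Q (Nat.pair (Nat.pair (encode σ) x)
          (graph A (Nat.pair (encode σ) x).unpair.2).toNat) = 0 := by
        simpa using hx.symm
      simp only [Q, Nat.unpair_pair, encodek, Option.some.injEq] at hx'
      by_cases hcond : (graph A x).toNat = 1 ∧ k ≤ x.unpair.1 ∧
          ofNat Code x.unpair.1.unpair.1 = c ∧ σ = tau x.unpair.1 x.unpair.2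
      · obtain ⟨h1, h2, h3, h4⟩ := hcond
        refine ⟨x.unpair.1, h2, h3, ?_⟩
        have h5 : A x.unpair.1 = x.unpair.2 := by
          simpa [graph] using h1
        rw [h5]
        exact h4
      · rw [if_neg hcond] at hx'
        exact absurd hx' one_ne_zero

/-- almost every `B` computes no set weakly 1-generic relative to the graph of `A` -/
theorem nonW {A : ℕ → ℕ} (hA : ∀ m, ¬ Proh m (A m)) :
    ∀ᵐ B ∂mu, ¬ ∃ G : ℕ → Bool,
      TuringReducible (fun n => Part.some (G n).toNat) (fun n => Part.some (B n).toNat) ∧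
      ∀ W : Set (List Bool),
        (∃ f : ℕ →. ℕ, TuringReducible f (fun n => Part.some (graph A n).toNat) ∧
          ∀ σ : List Bool, σ ∈ W ↔ (f (Encodable.encode σ)).Dom) →
        (∀ σ : List Bool, ∃ τ ∈ W, σ <+: τ) →
        ∃ n : ℕ, List.ofFn (fun i : Fin n => G i) ∈ W := by
  have hbc : ∀ᵐ B ∂mu, ∀ᶠ m in Filter.atTop, B ∉ U (ofNat Code (Nat.unpair m).1) (tau m (A m)) := by
    refine ae_eventually_notMem ?_
    refine ne_top_of_le_ne_top ?_ (ENNReal.tsum_le_tsum fun m => mu_U_le (hA m))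
    rw [ENNReal.tsum_geometric]
    simp
  filter_upwards [hbc] with B hB
  rintro ⟨G, hG, hgen⟩
  obtain ⟨k, hk⟩ := Filter.eventually_atTop.1 hB
  obtain ⟨F, hF1, hF2, hF3⟩ := use_principle (nat B) (fun n => Part.some (G n).toNat)
    (RecursiveIn.iff_nat.1 hG)
  obtain ⟨c, hc⟩ := exists_code_functional hF1
  obtain ⟨n, m, hm1, hm2, hm3⟩ := hgen (Wset A c k) (Wset_re A c k) (Wset_dense A c k)
  have hnot := hk m hm1
  rw [hm2, ← hm3] at hnot
  apply hnot
  -- `B` computes the initial segment of `G`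
  have h1 : ∀ x : ℕ, ∃ M, val c (seg (nat B) M) x = some (G x).toNat := by
    intro x
    obtain ⟨M, hM⟩ := (hF3 x (G x).toNat).1 (Part.mem_some _)
    exact val_complete hF2 hc hM
  choose M hM using h1
  refine ⟨(Finset.range n).sup M, comp_iff.2 fun x b hx => ?_⟩
  rw [List.getElem?_ofFn] at hx
  by_cases hxn : x < n
  · rw [dif_pos hxn] at hx
    simp only [Option.some.injEq] at hx
    rw [← hx]
    exact val_mono (seg_prefix _ (Finset.le_sup (f := M) (Finset.mem_range.2 hxn))) (hM x)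
  · rw [dif_neg hxn] at hx
    cases hx

end Pool.Agent.Lib.MP_f26228_lc
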