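import Pool.Agent.Lib.MP_f26228_lc.Forcing
import Pool.Agent.Lib.MP_f26228_lc.NonW
import Pool.Agent.Lib.MP_f26228_lc.Cols

set_option autoImplicit false

/-!
A positive measure of oracles is at Hausdorff distance one.
-/

namespace Pool.Agent.Lib.MP_f26228_lc

open Nat.Partrec (Code)
open Nat.Partrec.Code Encodable Denumerable MeasureTheory ENNReal

/-- block boundaries -/
def sq (n : ℕ) : ℕ := n.rec 0 fun k y => (k + 1) * (y + 1)

theorem sq_succ (n : ℕ) : sq (n + 1) = (n + 1) * (sq n + 1) := rfl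

theorem sq_lt (n : ℕ) : sq n < sq (n + 1) := by
  rw [sq_succ]
  have : 1 * (sq n + 1) ≤ (n + 1) * (sq n + 1) := Nat.mul_le_mul_right _ (by omega)
  omega

theorem sq_mono : StrictMono sq := strictMono_nat_of_lt_succ sq_lt

theorem sq_primrec : Primrec sq := by
  unfold sq
  refine Primrec.nat_rec' (f := fun n : ℕ => n) (g := fun _ => 0)
    (h := fun _ (y : ℕ × ℕ) => (y.1 + 1) * (y.2 + 1)) Primrec.id (Primrec.const 0) ?_
  exact Primrec.nat_mul.comp (Primrec.succ.comp (Primrec.fst.comp Primrec.snd))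
    (Primrec.succ.comp (Primrec.snd.comp Primrec.snd))

theorem blk_ex (x : ℕ) : ∃ n, x < sq (n + 1) :=
  ⟨x, lt_of_lt_of_le (Nat.lt_succ_self x) (sq_mono.id_le (x + 1))⟩

/-- index of the block containing `x` -/
def blk (x : ℕ) : ℕ := Nat.find (blk_ex x)

theorem blk_computable : Computable blk := by
  have h : PrimrecPred (fun p : ℕ × ℕ => p.1 < sq (p.2 + 1)) :=
    Primrec.nat_lt.comp Primrec.fst (sq_primrec.comp (Primrec.succ.comp Primrec.snd))
  exact Computable.find (P := fun x n => x < sq (n + 1)) h.computablePred blk_ex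

theorem blk_eq {x n : ℕ} (h1 : sq n ≤ x) (h2 : x < sq (n + 1)) : blk x = n := by
  unfold blk
  rw [Nat.find_eq_iff]
  refine ⟨h2, fun m hm => ?_⟩
  rw [not_lt]
  exact le_trans (sq_mono.monotone hm) h1

theorem blk_sq (n : ℕ) : blk (sq n) = n := blk_eq le_rfl (sq_lt n)

/-- bit `x` of `v` -/
def bit (v x : ℕ) : ℕ := (v / 2 ^ x) % 2

theorem bit_primrec : Primrec₂ bit := by
  unfold bit
  have hpow : Primrec₂ (fun a b : ℕ => a ^ b) := Primrec₂.unpaired'.1 Nat.Primrec.pow
  exact Primrec.nat_mod.comp (Primrec.nat_div.comp Primrec.fst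
    (hpow.comp (Primrec.const 2) Primrec.snd)) (Primrec.const 2)

theorem bit_eq (v x : ℕ) : bit v x = (v.testBit x).toNat := by
  unfold bit
  rw [Nat.testBit_eq_decide_div_mod_eq]
  rcases Nat.mod_two_eq_zero_or_one (v / 2 ^ x) with h | h <;> simp [h]

theorem exists_bits (N : ℕ) (f : ℕ → Bool) : ∃ v < 2 ^ N, ∀ x < N, bit v x = (f x).toNat := by
  refine ⟨Nat.ofBits (fun i : Fin N => f i), Nat.ofBits_lt_two_pow _, fun x hx => ?_⟩
  rw [bit_eq, Nat.testBit_ofBits_lt _ _ hx]

/-- the set built from `B` and the values `v` -/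
def Dset (B : ℕ → Bool) (v : ℕ → ℕ) (x : ℕ) : Bool :=
  if x = sq (blk x) then B (blk x) else decide (bit (v (blk x)) x = 1)

/-- the final computation -/
def Kfun (w : ℕ) : ℕ :=
  if w.unpair.1 = sq (blk w.unpair.1) then w.unpair.2.unpair.1
  else bit w.unpair.2.unpair.2 w.unpair.1

theorem Kfun_computable : Computable Kfun := by
  unfold Kfun
  have h1 : Computable (fun w : ℕ => w.unpair.1) := (Primrec.fst.comp Primrec.unpair).to_comp
  have h2 : Computable (fun w : ℕ => w.unpair.2.unpair.1) :=
    (Primrec.fst.comp (Primrec.unpair.comp (Primrec.snd.comp Primrec.unpair))).to_comp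
  have h3 : Computable (fun w : ℕ => w.unpair.2.unpair.2) :=
    (Primrec.snd.comp (Primrec.unpair.comp (Primrec.snd.comp Primrec.unpair))).to_comp
  refine ComputablePred.ite h2 (bit_primrec.to_comp.comp h3 h1) ?_
  refine Computable.computablePred ?_
  exact Primrec.eq.decide.to_comp.comp h1 (sq_primrec.to_comp.comp (blk_computable.comp h1))

/-- the oracle of a set -/
def orc (B : ℕ → Bool) : ℕ →. ℕ := fun n => Part.some (B n).toNat

theorem fB_recursiveIn (B : ℕ → Bool) : Nat.RecursiveIn {orc B} (fB B) := by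
  have hO : Nat.RecursiveIn {orc B} (orc B) := Nat.RecursiveIn.oracle _ rfl
  have h1 : Nat.RecursiveIn {orc B} (ell B) := Nat.RecursiveIn.rfind hO
  have h2 : Nat.RecursiveIn {orc B} (fun n => (n : ℕ) : ℕ →. ℕ) :=
    (Nat.Primrec.id).recursiveIn
  have h3 : Nat.RecursiveIn {orc B} (Nat.unpaired Psi') :=
    (Partrec₂.unpaired'.2 Psi'_partrec).recursiveIn
  refine (h3.comp (h1.pair h2)).of_eq fun n => ?_
  unfold fB
  apply Part.ext
  intro v
  simp [Seq.seq, Nat.unpaired]

theorem Dset_le {B : ℕ → Bool} {v : ℕ → ℕ} (hv : ∀ n, v n ∈ fB B n) :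
    Nat.RecursiveIn {orc B} (orc (Dset B v)) := by
  have hO : Nat.RecursiveIn {orc B} (orc B) := Nat.RecursiveIn.oracle _ rfl
  have h2 : Nat.RecursiveIn {orc B} (fun n => (n : ℕ) : ℕ →. ℕ) :=
    (Nat.Primrec.id).recursiveIn
  have hb : Nat.RecursiveIn {orc B} (fun n => (blk n : ℕ) : ℕ →. ℕ) :=
    (Partrec.nat_iff.1 blk_computable.partrec).recursiveIn
  have hK : Nat.RecursiveIn {orc B} (fun n => (Kfun n : ℕ) : ℕ →. ℕ) :=
    (Partrec.nat_iff.1 Kfun_computable.partrec).recursiveIn
  refine (hK.comp (h2.pair ((hO.comp hb).pair ((fB_recursiveIn B).comp hb)))).of_eq fun x => ?_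
  have h3 : fB B (blk x) = Part.some (v (blk x)) := Part.eq_some_iff.2 (hv _)
  have h4 : Kfun (Nat.pair x (Nat.pair (B (blk x)).toNat (v (blk x)))) = (Dset B v x).toNat := by
    unfold Kfun Dset
    simp only [Nat.unpair_pair]
    split_ifs with h
    · rfl
    · rw [bit_eq]
      cases (v (blk x)).testBit x <;> simp
  simp [orc, Seq.seq, h3, h4]

theorem le_Dset (B : ℕ → Bool) (v : ℕ → ℕ) : Nat.RecursiveIn {orc (Dset B v)} (orc B) := by
  have hO : Nat.RecursiveIn {orc (Dset B v)} (orc (Dset B v)) := Nat.RecursiveIn.oracle _ rfl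
  have hs : Nat.RecursiveIn {orc (Dset B v)} (fun n => (sq n : ℕ) : ℕ →. ℕ) :=
    (Primrec.nat_iff.1 sq_primrec).recursiveIn
  refine (hO.comp hs).of_eq fun n => ?_
  simp [orc, Dset, blk_sq]

theorem Dset_equiv {B : ℕ → Bool} {v : ℕ → ℕ} (hv : ∀ n, v n ∈ fB B n) :
    TuringEquivalent (fun n => Part.some (Dset B v n).toNat) (fun n => Part.some (B n).toNat) :=
  ⟨RecursiveIn.iff_nat.2 (Dset_le hv), RecursiveIn.iff_nat.2 (le_Dset B v)⟩

/-- upper density of the symmetric difference -/
noncomputable def dens (C D : ℕ → Bool) : ℝ :=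
  Filter.limsup (fun n : ℕ => (((Finset.range n).filter (fun k => C k ≠ D k)).card : ℝ) / (n : ℝ))
    Filter.atTop

theorem ratio_nonneg (C D : ℕ → Bool) (n : ℕ) :
    0 ≤ (((Finset.range n).filter (fun k => C k ≠ D k)).card : ℝ) / (n : ℝ) := by positivity

theorem ratio_le_one (C D : ℕ → Bool) (n : ℕ) :
    (((Finset.range n).filter (fun k => C k ≠ D k)).card : ℝ) / (n : ℝ) ≤ 1 := by
  refine div_le_one_of_le₀ ?_ (Nat.cast_nonneg _)
  have := Finset.card_filter_le (Finset.range n) (fun k => C k ≠ D k)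
  rw [Finset.card_range] at this
  exact_mod_cast this

theorem dens_bdd (C D : ℕ → Bool) : Filter.IsBoundedUnder (· ≤ ·) Filter.atTop
    (fun n : ℕ => (((Finset.range n).filter (fun k => C k ≠ D k)).card : ℝ) / (n : ℝ)) :=
  Filter.isBoundedUnder_of ⟨1, ratio_le_one C D⟩

theorem dens_bdd' (C D : ℕ → Bool) : Filter.IsBoundedUnder (· ≥ ·) Filter.atTop
    (fun n : ℕ => (((Finset.range n).filter (fun k => C k ≠ D k)).card : ℝ) / (n : ℝ)) :=
  Filter.isBoundedUnder_of ⟨0, ratio_nonneg C D⟩

theorem dens_nonneg (C D : ℕ → Bool) : 0 ≤ dens C D :=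
  Filter.le_limsup_of_frequently_le
    (Filter.Frequently.of_forall fun n => ratio_nonneg C D n) (dens_bdd C D)

theorem dens_le_one (C D : ℕ → Bool) : dens C D ≤ 1 := by
  refine Filter.limsup_le_of_le ?_ (Filter.Eventually.of_forall fun n => ratio_le_one C D n)
  exact (dens_bdd' C D).isCoboundedUnder_le

theorem one_le_dens {C D : ℕ → Bool}
    (h : ∀ N, ∃ n ≥ N, ∀ x, sq n < x → x < sq (n + 1) → C x ≠ D x) : 1 ≤ dens C D := by
  refine le_of_forall_pos_le_add fun ε hε => ?_
  suffices h1 : 1 - ε ≤ dens C D by linarith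
  refine Filter.le_limsup_of_frequently_le ?_ (dens_bdd C D)
  rw [Filter.frequently_atTop]
  intro N
  obtain ⟨N', hN'⟩ := exists_nat_one_div_lt hε
  obtain ⟨n, hn, hx⟩ := h (max N N')
  refine ⟨sq (n + 1), ?_, ?_⟩
  · exact le_trans (le_trans (le_max_left _ _) hn) (le_trans (Nat.le_succ n) (sq_mono.id_le _))
  · have hcard : sq (n + 1) - (sq n + 1) ≤
        ((Finset.range (sq (n + 1))).filter (fun k => C k ≠ D k)).card := by
      have hsub : Finset.Ico (sq n + 1) (sq (n + 1)) ⊆
          (Finset.range (sq (n + 1))).filter (fun k => C k ≠ D k) := by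
        intro x hx'
        rw [Finset.mem_Ico] at hx'
        exact Finset.mem_filter.2 ⟨Finset.mem_range.2 hx'.2, hx x hx'.1 hx'.2⟩
      have := Finset.card_le_card hsub
      rwa [Nat.card_Ico] at this
    have hle : sq n + 1 ≤ sq (n + 1) := sq_lt n
    have hpos : (0 : ℝ) < sq (n + 1) := by
      exact_mod_cast lt_of_le_of_lt (Nat.zero_le _) (sq_lt n)
    rw [le_div_iff₀ hpos]
    have h2 : ((sq (n + 1) : ℝ) - (sq n + 1)) ≤
        (((Finset.range (sq (n + 1))).filter (fun k => C k ≠ D k)).card : ℝ) := by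
      have h3 : ((sq (n + 1) - (sq n + 1) : ℕ) : ℝ) ≤
        (((Finset.range (sq (n + 1))).filter (fun k => C k ≠ D k)).card : ℝ) := by
        exact_mod_cast hcard
      rwa [Nat.cast_sub hle, Nat.cast_add, Nat.cast_one] at h3
    refine le_trans ?_ h2
    have h4 : (sq (n + 1) : ℝ) = (n + 1) * (sq n + 1) := by
      rw [sq_succ]; push_cast; ring
    have h5 : 1 / ((n : ℝ) + 1) < ε := by
      refine lt_of_le_of_lt ?_ hN'
      have : (N' : ℝ) ≤ n := by exact_mod_cast le_trans (le_max_right N N') hn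
      exact one_div_le_one_div_of_le (by positivity) (by linarith)
    have h6 : (1 : ℝ) ≤ ε * (n + 1) := by
      rw [div_lt_iff₀ (by positivity)] at h5
      linarith
    have h7 : (sq n : ℝ) + 1 ≤ ε * (sq (n + 1) : ℝ) := by
      rw [h4]
      have h8 : (0 : ℝ) ≤ (sq n : ℝ) + 1 := by positivity
      nlinarith
    linarith

/-- prefixes of the graph computed from prefixes of the function -/
def gseg (τ : List ℕ) : List ℕ :=
  (List.range τ.length).map fun x => if τ[x.unpair.1]? = some x.unpair.2 then 1 else 0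

theorem gseg_primrec : Primrec gseg := by
  unfold gseg
  refine Primrec.list_map (Primrec.list_range.comp Primrec.list_length) ?_
  refine Primrec.ite ?_ (Primrec.const 1) (Primrec.const 0)
  exact Primrec.eq.comp (Primrec.list_getElem?.comp Primrec.fst
    (Primrec.fst.comp (Primrec.unpair.comp Primrec.snd)))
    (Primrec.option_some.comp (Primrec.snd.comp (Primrec.unpair.comp Primrec.snd)))

theorem gseg_seg (A : ℕ → ℕ) (l : ℕ) : gseg (seg A l) = seg (nat (graph A)) l := by
  unfold gseg
  rw [seg_length]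
  show _ = (List.range l).map (nat (graph A))
  refine List.map_congr_left fun x hx => ?_
  have hx' : x.unpair.1 < l := lt_of_le_of_lt (Nat.unpair_left_le x) (List.mem_range.1 hx)
  rw [seg_getElem?, if_pos hx']
  unfold nat graph
  by_cases h : A x.unpair.1 = x.unpair.2 <;> simp [h]

/-- the relation to be met, for a functional `F` computing a set `C` from the graph:
`v` codes the complement of `C` below `sq (n + 1)` -/
def RelF (F : List ℕ → ℕ →. ℕ) (τ : List ℕ) (n v : ℕ) : Prop :=
  ∀ x < sq (n + 1), ∃ b, b ∈ F (gseg τ) x ∧ b + bit v x = 1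

theorem graph_re {F : List ℕ → ℕ →. ℕ} (hF : Partrec₂ F) :
    REPred (fun z : (List ℕ × ℕ) × ℕ => z.2 ∈ F z.1.1 z.1.2) := by
  obtain ⟨c, hc⟩ := exists_code_functional hF
  refine re_of_exists (R := fun z k => decide (evaln k c (encode z.1) = some z.2)) ?_ fun z => ?_
  · apply Primrec.to_comp
    refine Primrec.eq.decide.comp ?_ (Primrec.option_some.comp (Primrec.snd.comp Primrec.fst))
    exact primrec_evaln.comp (g := fun w : ((List ℕ × ℕ) × ℕ) × ℕ => ((w.2, c), encode w.1.1))
      ((Primrec.snd.pair (Primrec.const c)).pair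
        (Primrec.encode.comp (Primrec.fst.comp Primrec.fst)))
  · rw [← hc, evaln_complete]
    simp only [decide_eq_true_eq, Option.mem_def]

theorem RelF_re {F : List ℕ → ℕ →. ℕ} (hF : Partrec₂ F) :
    REPred (fun x : List ℕ × ℕ × ℕ => RelF F x.1 x.2.1 x.2.2) := by
  unfold RelF
  have h1 : REPred (fun y : (List ℕ × ℕ × ℕ) × ℕ =>
      ∃ b, b ∈ F (gseg y.1.1) y.2 ∧ b + bit y.1.2.2 y.2 = 1) := by
    refine re_exists (p := fun (y : (List ℕ × ℕ × ℕ) × ℕ) (b : ℕ) =>
      b ∈ F (gseg y.1.1) y.2 ∧ b + bit y.1.2.2 y.2 = 1) ?_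
    refine re_and ?_ ?_
    · exact re_comp (graph_re hF)
        (f := fun y : ((List ℕ × ℕ × ℕ) × ℕ) × ℕ => ((gseg y.1.1.1, y.1.2), y.2))
        (((gseg_primrec.comp (Primrec.fst.comp (Primrec.fst.comp Primrec.fst))).pair
          (Primrec.snd.comp Primrec.fst)).pair Primrec.snd).to_comp
    · refine re_of_primrec (Primrec.eq.comp (Primrec.nat_add.comp Primrec.snd ?_)
        (Primrec.const 1))
      exact bit_primrec.comp
        (Primrec.snd.comp (Primrec.snd.comp (Primrec.fst.comp Primrec.fst)))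
        (Primrec.snd.comp Primrec.fst)
  have h2 := re_forall_lt (p := fun (y : List ℕ × ℕ × ℕ) (x : ℕ) =>
    ∃ b, b ∈ F (gseg y.1) x ∧ b + bit y.2.2 x = 1) h1
  exact re_comp h2 (f := fun y : List ℕ × ℕ × ℕ => (y, sq (y.2.1 + 1)))
    (Primrec.id.pair (sq_primrec.comp (Primrec.succ.comp
      (Primrec.fst.comp Primrec.snd)))).to_comp

theorem main_theorem :
    ∃ A : ℕ → Bool,
      ¬ (∀ᵐ B ∂(Measure.infinitePi (fun _ : ℕ => (PMF.uniformOfFintype Bool).toMeasure)),
          max
            (⨆ C : {C : ℕ → Bool // TuringEquivalent (fun n => Part.some (C n).toNat)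
                                        (fun n => Part.some (A n).toNat)},
              ⨅ D : {D : ℕ → Bool // TuringEquivalent (fun n => Part.some (D n).toNat)
                                        (fun n => Part.some (B n).toNat)}, dens C.1 D.1)
            (⨆ D : {D : ℕ → Bool // TuringEquivalent (fun n => Part.some (D n).toNat)
                                        (fun n => Part.some (B n).toNat)},
              ⨅ C : {C : ℕ → Bool // TuringEquivalent (fun n => Part.some (C n).toNat)
                                        (fun n => Part.some (A n).toNat)}, dens C.1 D.1)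
            = (1 / 2 : ℝ)) ∧
      ¬ (∀ᵐ B ∂(Measure.infinitePi (fun _ : ℕ => (PMF.uniformOfFintype Bool).toMeasure)),
          ∃ G : ℕ → Bool,
            TuringReducible (fun n => Part.some (G n).toNat) (fun n => Part.some (B n).toNat) ∧
            ∀ W : Set (List Bool),
              (∃ f : ℕ →. ℕ, TuringReducible f (fun n => Part.some (A n).toNat) ∧
                  ∀ σ : List Bool, σ ∈ W ↔ (f (Encodable.encode σ)).Dom) →
              (∀ σ : List Bool, ∃ τ ∈ W, σ <+: τ) →
              ∃ n : ℕ, List.ofFn (fun i : Fin n => G i) ∈ W) := by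
  classical
  have hpow : Primrec₂ (fun a b : ℕ => a ^ b) := Primrec₂.unpaired'.1 Nat.Primrec.pow
  have hh : Primrec (fun n : ℕ => 2 ^ sq (n + 1)) :=
    hpow.comp (Primrec.const 2) (sq_primrec.comp Primrec.succ)
  obtain ⟨A, hA1, hA2⟩ := exists_generic hh (fun n => Nat.two_pow_pos _) proh_re proh_card
  refine ⟨graph A, ?_, ?_⟩
  · intro hae
    -- the good event
    have hgood : ∀ᵐ B ∂mu, ∀ e : ℕ, (∀ n, ∃ v < 2 ^ sq (n + 1), ∃ l, ∀ l' ≥ l,
        Rel e (seg A l') n v) → ∀ N, ∃ n ≥ N, ∃ v ∈ fB B n, ∃ l, Rel e (seg A l) n v := by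
      rw [ae_all_iff]
      intro e
      by_cases hlim : ∀ n, ∃ v < 2 ^ sq (n + 1), ∃ l, ∀ l' ≥ l, Rel e (seg A l') n v
      · obtain ⟨i, hi⟩ := hA2 (Rel e) (Rel.re e) hlim
        have hD : ∀ N, ∃ n ≥ N, n ∈ {n | ∃ v ∈ Psi i n, ∃ l, Rel e (seg A l) n v} := hi
        filter_upwards [exists_hit_io (i + 1) hD] with B hB _ N
        obtain ⟨n, hn, ⟨v, hv, hl⟩, hK⟩ := hB N
        exact ⟨n, hn, v, Part.mem_bind (mem_ell.2 hK) hv, hl⟩
      · exact Filter.Eventually.of_forall fun B hcon => absurd hcon hlim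
    -- on the good event with total `fB`, the distance is at least one
    have hdist : ∀ᵐ B ∂mu, ∃ n, ¬ (fB B n).Dom := by
      filter_upwards [hae, hgood] with B hB1 hB2
      by_contra hcon
      push Not at hcon
      let v : ℕ → ℕ := fun n => (fB B n).get (hcon n)
      have hv : ∀ n, v n ∈ fB B n := fun n => Part.get_mem _
      have hone : ∀ C : {C : ℕ → Bool // TuringEquivalent (fun n => Part.some (C n).toNat)
          (fun n => Part.some (graph A n).toNat)}, 1 ≤ dens C.1 (Dset B v) := by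
        rintro ⟨C, hC⟩
        obtain ⟨F, hF1, hF2, hF3⟩ := use_principle (nat (graph A))
          (fun n => Part.some (C n).toNat) (RecursiveIn.iff_nat.1 hC.1)
        obtain ⟨e, he⟩ := Rel.exists_index (RelF_re hF1)
        have hlim : ∀ n, ∃ v < 2 ^ sq (n + 1), ∃ l, ∀ l' ≥ l, Rel e (seg A l') n v := by
          intro n
          obtain ⟨w, hw1, hw2⟩ := exists_bits (sq (n + 1)) (fun x => !C x)
          have h1 : ∀ x : ℕ, ∃ M, (C x).toNat ∈ F (seg (nat (graph A)) M) x := fun x =>
            (hF3 x _).1 (Part.mem_some _)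
          choose M hM using h1
          refine ⟨w, hw1, (Finset.range (sq (n + 1))).sup M, fun l' hl' => ?_⟩
          rw [he]
          intro x hx
          refine ⟨(C x).toNat, ?_, ?_⟩
          · rw [gseg_seg]
            refine hF2 _ _ _ _ (seg_prefix _ (le_trans ?_ hl')) (hM x)
            exact Finset.le_sup (f := M) (Finset.mem_range.2 hx)
          · rw [hw2 x hx]
            cases C x <;> rfl
        refine one_le_dens fun N => ?_
        obtain ⟨n, hn, w, hw, l, hl⟩ := hB2 e hlim N
        refine ⟨n, hn, fun x hx1 hx2 => ?_⟩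
        have hwv : w = v n := Part.mem_unique hw (hv n)
        rw [he] at hl
        obtain ⟨b, hb1, hb2⟩ := hl x hx2
        rw [gseg_seg] at hb1
        have hb3 : b = (C x).toNat := by
          have := (hF3 x b).2 ⟨l, hb1⟩
          simpa using this
        have hblk : blk x = n := blk_eq hx1.le hx2
        show C x ≠ Dset B v x
        unfold Dset
        rw [hblk, if_neg (by omega), ← hwv]
        rw [hb3] at hb2
        have hbit : bit w x = 1 - (C x).toNat := by omega
        rw [hbit]
        cases C x <;> simp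
      -- conclude
      let D₀ : {D : ℕ → Bool // TuringEquivalent (fun n => Part.some (D n).toNat)
          (fun n => Part.some (B n).toNat)} := ⟨Dset B v, Dset_equiv hv⟩
      let C₀ : {C : ℕ → Bool // TuringEquivalent (fun n => Part.some (C n).toNat)
          (fun n => Part.some (graph A n).toNat)} := ⟨graph A, TuringEquivalent.refl _⟩
      have : Nonempty {C : ℕ → Bool // TuringEquivalent (fun n => Part.some (C n).toNat)
          (fun n => Part.some (graph A n).toNat)} := ⟨C₀⟩
      have h1 : 1 ≤ ⨅ C : {C : ℕ → Bool // TuringEquivalent (fun n => Part.some (C n).toNat)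
          (fun n => Part.some (graph A n).toNat)}, dens C.1 D₀.1 := le_ciInf hone
      have hbdd : BddAbove (Set.range fun D : {D : ℕ → Bool //
          TuringEquivalent (fun n => Part.some (D n).toNat) (fun n => Part.some (B n).toNat)} =>
          ⨅ C : {C : ℕ → Bool // TuringEquivalent (fun n => Part.some (C n).toNat)
          (fun n => Part.some (graph A n).toNat)}, dens C.1 D.1) := by
        refine ⟨1, ?_⟩
        rintro _ ⟨D, rfl⟩
        have hbb : BddBelow (Set.range fun C : {C : ℕ → Bool //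
            TuringEquivalent (fun n => Part.some (C n).toNat)
            (fun n => Part.some (graph A n).toNat)} => dens C.1 D.1) := by
          refine ⟨0, ?_⟩
          rintro _ ⟨C, rfl⟩
          exact dens_nonneg _ _
        exact (ciInf_le hbb C₀).trans (dens_le_one _ _)
      have h2 := le_ciSup hbdd D₀
      have h3 : (1 : ℝ) ≤ 1 / 2 := by
        rw [← hB1]
        exact le_trans (le_trans h1 h2) (le_max_right _ _)
      norm_num at h3
    have h4 : mu {B | ∃ n, ¬ (fB B n).Dom} = 1 := by
      rw [← prob_compl_eq_zero_iff₀]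
      · exact hdist
      · exact NullMeasurableSet.of_compl (NullMeasurableSet.of_null hdist)
    have h5 := fB_partial
    rw [h4] at h5
    have h6 : (2⁻¹ : ℝ≥0∞) < 1 := by rw [ENNReal.inv_lt_one]; norm_num
    exact absurd (lt_of_le_of_lt h5 h6) (lt_irrefl _)
  · intro hae
    have h := nonW hA1
    have hF : ∀ᵐ _B ∂mu, False := by
      filter_upwards [hae, h] with B h1 h2
      exact h2 h1
    rw [ae_iff] at hF
    simp at hF

end Pool.Agent.Lib.MP_f26228_lc
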