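import Pool.Agent.Lib.MP_f26228_lc.Big
import Pool.Agent.Lib.MP_f26228_lc.Psi

set_option autoImplicit false

/-!
One requirement: either some task is stuck or the process enumerates a new tree.
-/

namespace Pool.Agent.Lib.MP_f26228_lc

open Nat.Partrec (Code)
open Nat.Partrec.Code Encodable Denumerable

/-- the relation searched for by one task: state `(j, L)`, position `n`; result `(v, l)` -/
def TaskRel (h : ℕ → ℕ) (T S : List ℕ → Prop) (R : List ℕ → ℕ → ℕ → Prop) (σ : List ℕ)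
    (x : (ℕ × List (List ℕ)) × ℕ) (y : ℕ × List (List ℕ)) : Prop :=
  y.1 < h x.2 ∧
  (∀ ρ ∈ y.2, T ρ ∧ ((σ :: x.1.2).getD x.1.1.unpair.1 σ <+: ρ ∧
    (σ :: x.1.2).getD x.1.1.unpair.1 σ ≠ ρ) ∧ R ρ x.2 y.1) ∧
  Big x.1.1 (fun ρ => S ρ ∨ ρ ∈ y.2) ((σ :: x.1.2).getD x.1.1.unpair.1 σ)

theorem TaskRel.re {h : ℕ → ℕ} (hh : Primrec h) {T S : List ℕ → Prop} (hT : REPred T)
    (hS : REPred S) {R : List ℕ → ℕ → ℕ → Prop}
    (hR : REPred (fun x : List ℕ × ℕ × ℕ => R x.1 x.2.1 x.2.2)) (σ : List ℕ) :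
    REPred (fun z : ((ℕ × List (List ℕ)) × ℕ) × (ℕ × List (List ℕ)) =>
      TaskRel h T S R σ z.1 z.2) := by
  have hnode : Primrec (fun z : ((ℕ × List (List ℕ)) × ℕ) × (ℕ × List (List ℕ)) =>
      (σ :: z.1.1.2).getD z.1.1.1.unpair.1 σ) := by
    refine (Primrec.list_getD σ).comp (f := fun (l : List (List ℕ)) n => l.getD n σ) ?_ ?_
    · exact Primrec.list_cons.comp (Primrec.const σ)
        (Primrec.snd.comp (Primrec.fst.comp Primrec.fst))
    · exact Primrec.fst.comp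
        (Primrec.unpair.comp (Primrec.fst.comp (Primrec.fst.comp Primrec.fst)))
  unfold TaskRel
  refine re_and ?_ (re_and ?_ ?_)
  · refine re_of_primrec ?_
    exact Primrec.nat_lt.comp (Primrec.fst.comp Primrec.snd)
      (hh.comp (Primrec.snd.comp Primrec.fst))
  · have h1 : REPred (fun w : (((ℕ × List (List ℕ)) × ℕ) × (ℕ × List (List ℕ))) × List ℕ =>
        T w.2 ∧ ((σ :: w.1.1.1.2).getD w.1.1.1.1.unpair.1 σ <+: w.2 ∧
          (σ :: w.1.1.1.2).getD w.1.1.1.1.unpair.1 σ ≠ w.2) ∧ R w.2 w.1.1.2 w.1.2.1) := by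
      refine re_and ?_ (re_and ?_ ?_)
      · exact re_comp hT Computable.snd
      · have hn := hnode.comp (Primrec.fst (α := ((ℕ × List (List ℕ)) × ℕ) × (ℕ × List (List ℕ)))
          (β := List ℕ))
        refine re_of_primrec (PrimrecPred.and ?_ ?_)
        · refine PrimrecPred.of_eq (p := fun w :
            (((ℕ × List (List ℕ)) × ℕ) × (ℕ × List (List ℕ))) × List ℕ =>
              (σ :: w.1.1.1.2).getD w.1.1.1.1.unpair.1 σ =
                w.2.take ((σ :: w.1.1.1.2).getD w.1.1.1.1.unpair.1 σ).length) ?_ ?_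
          · refine Primrec.eq.comp hn ?_
            exact Primrec.list_take.comp (Primrec.list_length.comp hn) Primrec.snd
          · intro w
            exact List.prefix_iff_eq_take.symm
        · exact (Primrec.eq.comp hn Primrec.snd).not
      · exact re_comp hR (f := fun w :
            (((ℕ × List (List ℕ)) × ℕ) × (ℕ × List (List ℕ))) × List ℕ =>
              (w.2, w.1.1.2, w.1.2.1))
          (Primrec.snd.pair ((Primrec.snd.comp (Primrec.fst.comp Primrec.fst)).pair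
            (Primrec.fst.comp (Primrec.snd.comp Primrec.fst)))).to_comp
    have h2 := re_forall_mem
      (p := fun (z : ((ℕ × List (List ℕ)) × ℕ) × (ℕ × List (List ℕ))) (ρ : List ℕ) =>
        T ρ ∧ ((σ :: z.1.1.2).getD z.1.1.1.unpair.1 σ <+: ρ ∧
          (σ :: z.1.1.2).getD z.1.1.1.unpair.1 σ ≠ ρ) ∧ R ρ z.1.2 z.2.1) h1
    exact re_comp h2 (f := fun z : ((ℕ × List (List ℕ)) × ℕ) × (ℕ × List (List ℕ)) =>
      (z, z.2.2)) (Primrec.id.pair (Primrec.snd.comp Primrec.snd)).to_comp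
  · exact re_comp (Big.re hS) (f := fun z : ((ℕ × List (List ℕ)) × ℕ) × (ℕ × List (List ℕ)) =>
      ((z.1.1.1, z.2.2), (σ :: z.1.1.2).getD z.1.1.1.unpair.1 σ))
      (((Primrec.fst.comp (Primrec.fst.comp Primrec.fst)).pair
        (Primrec.snd.comp Primrec.snd)).pair hnode).to_comp

theorem strategy {h : ℕ → ℕ} (hh : Primrec h) {T S : List ℕ → Prop}
    (hT : REPred T) (hS : REPred S) {R : List ℕ → ℕ → ℕ → Prop}
    (hR : REPred (fun x : List ℕ × ℕ × ℕ => R x.1 x.2.1 x.2.2)) {σ : List ℕ} (hσ : T σ) :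
    (∃ τ n k, T τ ∧ σ <+: τ ∧
      ∀ v < h n, ¬ Big k (fun ρ => S ρ ∨ (T ρ ∧ (τ <+: ρ ∧ τ ≠ ρ) ∧ R ρ n v)) τ) ∨
    ∃ (T' : List ℕ → Prop) (i : ℕ), REPred T' ∧ T' σ ∧ (∀ τ, T' τ → T τ ∧ σ <+: τ) ∧
      (∀ τ, T' τ → ∀ k, Big k (fun ρ => S ρ ∨ (T' ρ ∧ (τ <+: ρ ∧ τ ≠ ρ))) τ) ∧
      ∀ N, ∃ E : List (List ℕ), ∀ τ, T' τ → τ ∉ E → ∃ n ≥ N, ∃ v ∈ Psi i n, R τ n v := by
  classical
  by_cases hstuck : ∃ τ n k, T τ ∧ σ <+: τ ∧
      ∀ v < h n, ¬ Big k (fun ρ => S ρ ∨ (T ρ ∧ (τ <+: ρ ∧ τ ≠ ρ) ∧ R ρ n v)) τ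
  · exact Or.inl hstuck
  right
  push Not at hstuck
  obtain ⟨g, hg, hg1, hg2⟩ := re_unif (TaskRel.re hh hT hS hR σ)
  -- the process
  let P : ℕ →. ℕ := fun x =>
    (decode (α := ℕ × List (List ℕ)) x.unpair.1 : Part (ℕ × List (List ℕ))).bind fun s =>
      (g (s, x.unpair.2)).map fun y => Nat.pair (encode (s.1 + 1, s.2 ++ y.2)) y.1
  have hP : Nat.Partrec P := by
    rw [← Partrec.nat_iff]
    refine Partrec.bind (Computable.decode.comp
      (Computable.fst.comp Computable.unpair)).ofOption ?_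
    refine Partrec.map (hg.comp (Computable.snd.pair (Computable.snd.comp
      (Computable.unpair.comp Computable.fst)))) ?_
    refine (Primrec₂.natPair.comp (Primrec.encode.comp ?_) (Primrec.fst.comp Primrec.snd)).to_comp
    refine Primrec.pair (Primrec.succ.comp
      (Primrec.fst.comp (Primrec.snd.comp Primrec.fst))) ?_
    exact Primrec.list_append.comp (Primrec.snd.comp (Primrec.snd.comp Primrec.fst))
      (Primrec.snd.comp Primrec.snd)
  obtain ⟨c, hc⟩ := Code.exists_code.1 hP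
  let i := encode c
  have hi : ofNat Code i = c := Denumerable.ofNat_encode c
  have hPval : ∀ (s : ℕ × List (List ℕ)) (n : ℕ) (y : ℕ × List (List ℕ)), y ∈ g (s, n) →
      Nat.pair (encode (s.1 + 1, s.2 ++ y.2)) y.1 ∈ eval c (Nat.pair (encode s) n) := by
    intro s n y hy
    rw [hc]
    simp only [P, Nat.unpair_pair, encodek, Part.coe_some, Part.bind_some]
    exact (Part.mem_map_iff _).2 ⟨y, hy, rfl⟩
  -- one step
  have step : ∀ (j : ℕ) (L : List (List ℕ)) (n : ℕ), IsTask c (encode (j, L)) n →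
      (∀ ρ ∈ L, T ρ ∧ σ <+: ρ) → ∃ (l : List (List ℕ)) (v n' : ℕ), n < n' ∧
        IsTask c (encode (j + 1, L ++ l)) n' ∧ (∀ m, n ≤ m → m < n' → St c m = (encode (j, L), n)) ∧
        v ∈ Psi i n ∧ TaskRel h T S R σ ((j, L), n) (v, l) ∧ (∀ ρ ∈ L ++ l, T ρ ∧ σ <+: ρ) := by
    intro j L n ht hL
    have hτ : T ((σ :: L).getD j.unpair.1 σ) ∧ σ <+: (σ :: L).getD j.unpair.1 σ := by
      rw [List.getD_eq_getElem?_getD]
      cases hx : (σ :: L)[j.unpair.1]? with
      | none => exact ⟨hσ, List.prefix_refl _⟩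
      | some ρ =>
        have : ρ ∈ σ :: L := List.mem_of_getElem? hx
        rcases List.mem_cons.1 this with rfl | hm
        · exact ⟨hσ, List.prefix_refl _⟩
        · exact hL ρ hm
    obtain ⟨v, hv, hbig⟩ := hstuck _ n j hτ.1 hτ.2
    obtain ⟨l, hl1, hl2⟩ := hbig.finite_wit
    have hdom : (g ((j, L), n)).Dom := by
      refine hg2 _ ⟨(v, l), ?_⟩
      exact ⟨hv, hl1, hl2⟩
    obtain ⟨y, hy⟩ := Part.dom_iff_mem.1 hdom
    have hrel := hg1 _ _ hy
    have hev := hPval (j, L) n y hy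
    obtain ⟨n', hn', ht', hm⟩ := ht.next hev
    rw [Nat.unpair_pair] at ht'
    refine ⟨y.2, y.1, n', hn', ht', hm, ?_, hrel, ?_⟩
    · have h1 : IsTask (ofNat Code i) (encode (j, L)) n := by rw [hi]; exact ht
      have h2 := Psi_mem h1 (by rw [hi]; exact hev)
      rwa [Nat.unpair_pair] at h2
    · intro ρ hρ
      rcases List.mem_append.1 hρ with h1 | h1
      · exact hL ρ h1
      · have := hrel.2.1 ρ h1
        exact ⟨this.1, hτ.2.trans this.2.1.1⟩
  -- the run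
  let X : ℕ → Type := fun j => {x : List (List ℕ) × ℕ //
    IsTask c (encode (j, x.1)) x.2 ∧ ∀ ρ ∈ x.1, T ρ ∧ σ <+: ρ}
  have hnext : ∀ j (x : X j), ∃ y : X (j + 1), ∃ (l : List (List ℕ)) (v : ℕ),
      y.1.1 = x.1.1 ++ l ∧ x.1.2 < y.1.2 ∧
      (∀ m, x.1.2 ≤ m → m < y.1.2 → St c m = (encode (j, x.1.1), x.1.2)) ∧
      v ∈ Psi i x.1.2 ∧ TaskRel h T S R σ ((j, x.1.1), x.1.2) (v, l) := by
    rintro j ⟨⟨L, n⟩, ht, hL⟩
    obtain ⟨l, v, n', h1, h2, h3, h4, h5, h6⟩ := step j L n ht hL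
    exact ⟨⟨⟨L ++ l, n'⟩, h2, h6⟩, l, v, rfl, h1, h3, h4, h5⟩
  choose nx lx vx hx1 hx2 hx3 hx4 hx5 using hnext
  have hx0 : IsTask c (encode (0, ([] : List (List ℕ)))) 0 := IsTask.zero c
  let seq : ∀ j, X j := fun j => Nat.rec ⟨([], 0), hx0, by simp⟩ (fun j x => nx j x) j
  have hseq : ∀ j, seq (j + 1) = nx j (seq j) := fun j => rfl
  let L : ℕ → List (List ℕ) := fun j => (seq j).1.1
  let pos : ℕ → ℕ := fun j => (seq j).1.2
  let lf : ℕ → List (List ℕ) := fun j => lx j (seq j)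
  let vv : ℕ → ℕ := fun j => vx j (seq j)
  have hL1 : ∀ j, L (j + 1) = L j ++ lf j := fun j => hx1 j (seq j)
  have hpos1 : ∀ j, pos j < pos (j + 1) := fun j => hx2 j (seq j)
  have hst1 : ∀ j m, pos j ≤ m → m < pos (j + 1) → St c m = (encode (j, L j), pos j) :=
    fun j => hx3 j (seq j)
  have hpsi1 : ∀ j, vv j ∈ Psi i (pos j) := fun j => hx4 j (seq j)
  have hrel1 : ∀ j, TaskRel h T S R σ ((j, L j), pos j) (vv j, lf j) := fun j => hx5 j (seq j)
  have htask1 : ∀ j, IsTask c (encode (j, L j)) (pos j) := fun j => (seq j).2.1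
  have hLT : ∀ j, ∀ ρ ∈ L j, T ρ ∧ σ <+: ρ := fun j => (seq j).2.2
  have hpos0 : pos 0 = 0 := rfl
  have hL0 : L 0 = [] := rfl
  have hposmono : StrictMono pos := strictMono_nat_of_lt_succ hpos1
  have hLpre : ∀ j j', j ≤ j' → L j <+: L j' := by
    intro j j' hj
    induction j', hj using Nat.le_induction with
    | base => exact List.prefix_refl _
    | succ k hk ih => rw [hL1]; exact ih.trans (List.prefix_append _ _)
  have hpj : ∀ j, j ≤ pos j := fun j => hposmono.id_le j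
  have hex : ∀ m, ∃ j, pos j ≤ m ∧ m < pos (j + 1) := by
    intro m
    have h1 : ∃ j, m < pos (j + 1) := ⟨m, lt_of_lt_of_le (Nat.lt_succ_self m) (hpj (m + 1))⟩
    refine ⟨Nat.find h1, ?_, Nat.find_spec h1⟩
    rcases Nat.eq_zero_or_pos (Nat.find h1) with h0 | h0
    · rw [h0, hpos0]; exact Nat.zero_le _
    · have := Nat.find_min h1 (Nat.sub_lt h0 one_pos)
      rw [Nat.sub_add_cancel (show 1 ≤ Nat.find h1 from h0)] at this
      exact not_lt.1 this
  -- the new tree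
  let T' : List ℕ → Prop := fun ρ => ρ = σ ∨ ∃ j, ρ ∈ L j
  have hT'mem : ∀ ρ, T' ρ ↔ (ρ = σ ∨ ∃ m : ℕ, ∃ s : ℕ × List (List ℕ),
      s ∈ decode (α := ℕ × List (List ℕ)) (St c m).1 ∧ ρ ∈ s.2) := by
    intro ρ
    refine or_congr Iff.rfl ⟨?_, ?_⟩
    · rintro ⟨j, hj⟩
      refine ⟨pos j, (j, L j), ?_, hj⟩
      rw [htask1 j]
      exact encodek _
    · rintro ⟨m, s, hs, hρ⟩
      obtain ⟨j, hj1, hj2⟩ := hex m
      rw [hst1 j m hj1 hj2] at hs
      simp only [encodek, Option.mem_def, Option.some.injEq] at hs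
      subst hs
      exact ⟨j, hρ⟩
  have hT're : REPred T' := by
    refine REPred.of_eq (p := fun ρ => ρ = σ ∨ ∃ m : ℕ, ∃ s : ℕ × List (List ℕ),
      s ∈ decode (α := ℕ × List (List ℕ)) (St c m).1 ∧ ρ ∈ s.2) ?_ fun ρ => (hT'mem ρ).symm
    refine re_or (re_of_primrec (Primrec.eq.comp Primrec.id (Primrec.const σ))) ?_
    refine re_exists (p := fun (ρ : List ℕ) (m : ℕ) => ∃ s : ℕ × List (List ℕ),
      s ∈ decode (α := ℕ × List (List ℕ)) (St c m).1 ∧ ρ ∈ s.2) ?_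
    refine re_exists (p := fun (x : List ℕ × ℕ) (s : ℕ × List (List ℕ)) =>
      s ∈ decode (α := ℕ × List (List ℕ)) (St c x.2).1 ∧ x.1 ∈ s.2) ?_
    refine re_of_primrec (PrimrecPred.and ?_ ?_)
    · have h1 : Primrec (fun x : (List ℕ × ℕ) × (ℕ × List (List ℕ)) =>
          decode (α := ℕ × List (List ℕ)) (St c x.1.2).1) :=
        Primrec.decode.comp (Primrec.fst.comp
          (St_primrec.comp (Primrec.const c) (Primrec.snd.comp Primrec.fst)))
      have h2 := Primrec.eq.comp h1 (Primrec.option_some.comp Primrec.snd)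
      exact h2
    · have h1 : PrimrecRel (fun (L : List (List ℕ)) (b : List ℕ) => ∃ a ∈ L, a = b) :=
        PrimrecRel.exists_mem_list Primrec.eq
      refine PrimrecPred.of_eq (h1.comp
        (Primrec.snd.comp (Primrec.snd (α := List ℕ × ℕ) (β := ℕ × List (List ℕ))))
        (Primrec.fst.comp Primrec.fst)) fun x => ?_
      simp
  refine ⟨T', i, hT're, Or.inl rfl, ?_, ?_, ?_⟩
  · rintro τ (rfl | ⟨j, hj⟩)
    · exact ⟨hσ, List.prefix_refl _⟩
    · exact hLT j τ hj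
  · intro τ hτ k
    -- find an index of τ
    obtain ⟨a, j0, ha⟩ : ∃ a j0, ∀ j ≥ j0, (σ :: L j).getD a σ = τ := by
      rcases hτ with rfl | ⟨j0, hj0⟩
      · exact ⟨0, 0, fun j _ => rfl⟩
      · obtain ⟨a, ha⟩ := List.mem_iff_getElem?.1 hj0
        refine ⟨a + 1, j0, fun j hj => ?_⟩
        obtain ⟨t, ht⟩ := hLpre j0 j hj
        rw [List.getD_eq_getElem?_getD, List.getElem?_cons_succ, ← ht,
          List.getElem?_append_left (List.getElem?_eq_some_iff.1 ha).1, ha]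
        rfl
    let j := Nat.pair a (max j0 k)
    have hj : max j0 k ≤ j := Nat.right_le_pair _ _
    have h1 := hrel1 j
    have h2 : (σ :: L j).getD (Nat.unpair j).1 σ = τ := by
      rw [show (Nat.unpair j).1 = a by simp [j]]
      exact ha j (le_trans (le_max_left _ _) hj)
    unfold TaskRel at h1
    simp only [h2] at h1
    refine Big.mono_k (le_trans (le_max_right j0 k) hj) (h1.2.2.mono_set fun ρ hρ => ?_)
    refine hρ.imp id fun hρ => ⟨Or.inr ⟨j + 1, ?_⟩, (h1.2.1 ρ hρ).2.1⟩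
    rw [hL1]
    exact List.mem_append_right _ hρ
  · intro N
    refine ⟨σ :: L N, fun τ hτ hE => ?_⟩
    rcases hτ with rfl | hτ
    · exact absurd List.mem_cons_self hE
    · have hfind := Nat.find_spec hτ
      have hN : N < Nat.find hτ := by
        by_contra hcon
        exact hE (List.mem_cons_of_mem _ ((hLpre _ _ (not_lt.1 hcon)).subset hfind))
      obtain ⟨j, hj⟩ : ∃ j, Nat.find hτ = j + 1 := ⟨Nat.find hτ - 1, by omega⟩
      have hnot : τ ∉ L j := Nat.find_min hτ (by omega)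
      rw [hj, hL1] at hfind
      have hlf : τ ∈ lf j := (List.mem_append.1 hfind).resolve_left hnot
      exact ⟨pos j, le_trans (by omega) (hpj j), vv j, hpsi1 j, ((hrel1 j).2.1 τ hlf).2.2⟩

end Pool.Agent.Lib.MP_f26228_lc
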