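import Pool.Agent.Lib.MP_f26228_lc.RE
import Pool.Agent.Lib.MP_f26228_lc.Use

set_option autoImplicit false

/-!
Single-valued evaluation of functionals on finite strings.
-/

namespace Pool.Agent.Lib.MP_f26228_lc

open Nat.Partrec (Code)
open Nat.Partrec.Code Encodable Denumerable

/-- first value found in the first `t` steps of the dovetailed evaluation -/
def valt (c : Code) (ρ : List ℕ) (x t : ℕ) : Option ℕ :=
  t.rec none fun s acc => acc <|> evaln s.unpair.2 c (encode (ρ.take s.unpair.1, x))

/-- value computed by the string `ρ` at `x` -/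
def val (c : Code) (ρ : List ℕ) (x : ℕ) : Option ℕ := valt c ρ x ρ.length

theorem valt_succ (c : Code) (ρ : List ℕ) (x t : ℕ) : valt c ρ x (t + 1) =
    (valt c ρ x t <|> evaln t.unpair.2 c (encode (ρ.take t.unpair.1, x))) := rfl

theorem valt_primrec :
    Primrec (fun z : (Code × List ℕ) × (ℕ × ℕ) => valt z.1.1 z.1.2 z.2.1 z.2.2) := by
  unfold valt
  refine Primrec.nat_rec' (f := fun z : (Code × List ℕ) × (ℕ × ℕ) => z.2.2)
    (g := fun _ => (none : Option ℕ))
    (h := fun z (y : ℕ × Option ℕ) =>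
      y.2 <|> evaln y.1.unpair.2 z.1.1 (encode (z.1.2.take y.1.unpair.1, z.2.1)))
    (Primrec.snd.comp Primrec.snd) (Primrec.const _) ?_
  refine Primrec.option_orElse.comp (Primrec.snd.comp Primrec.snd) ?_
  refine primrec_evaln.comp
    (g := fun w : ((Code × List ℕ) × (ℕ × ℕ)) × ℕ × Option ℕ =>
      ((w.2.1.unpair.2, w.1.1.1), encode (w.1.1.2.take w.2.1.unpair.1, w.1.2.1))) ?_
  refine Primrec.pair (Primrec.pair ?_ ?_) ?_
  · exact Primrec.snd.comp (Primrec.unpair.comp (Primrec.fst.comp Primrec.snd))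
  · exact Primrec.fst.comp (Primrec.fst.comp Primrec.fst)
  · refine Primrec.encode.comp (Primrec.pair ?_ ?_)
    · exact Primrec.list_take.comp
        (Primrec.fst.comp (Primrec.unpair.comp (Primrec.fst.comp Primrec.snd)))
        (Primrec.snd.comp (Primrec.fst.comp Primrec.fst))
    · exact Primrec.fst.comp (Primrec.snd.comp Primrec.fst)

theorem val_primrec : Primrec (fun z : (Code × List ℕ) × ℕ => val z.1.1 z.1.2 z.2) := by
  unfold val
  exact valt_primrec.comp
    (g := fun z : (Code × List ℕ) × ℕ => (z.1, (z.2, z.1.2.length)))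
    (Primrec.fst.pair (Primrec.snd.pair
      (Primrec.list_length.comp (Primrec.snd.comp Primrec.fst))))

theorem valt_mono_t {c : Code} {ρ : List ℕ} {x t t' v : ℕ} (h : t ≤ t')
    (hv : valt c ρ x t = some v) : valt c ρ x t' = some v := by
  induction t', h using Nat.le_induction with
  | base => exact hv
  | succ k _ ih => rw [valt_succ, ih]; rfl

theorem valt_congr {c : Code} {ρ ρ' : List ℕ} (h : ρ <+: ρ') (x t : ℕ) (ht : t ≤ ρ.length) :
    valt c ρ x t = valt c ρ' x t := by
  induction t with
  | zero => rfl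
  | succ t ih =>
    rw [valt_succ, valt_succ, ih (by omega)]
    have h1 : ρ.take t.unpair.1 = ρ'.take t.unpair.1 := by
      obtain ⟨r, rfl⟩ := h
      rw [List.take_append_of_le_length]
      exact le_trans (Nat.unpair_left_le t) (by omega)
    rw [h1]

theorem val_mono {c : Code} {ρ ρ' : List ℕ} (h : ρ <+: ρ') {x v : ℕ}
    (hv : val c ρ x = some v) : val c ρ' x = some v := by
  unfold val at *
  rw [valt_congr h x _ le_rfl] at hv
  exact valt_mono_t h.length_le hv

theorem valt_sound {c : Code} {ρ : List ℕ} {x t v : ℕ} (hv : valt c ρ x t = some v) :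
    ∃ a, v ∈ eval c (encode (ρ.take a, x)) := by
  induction t with
  | zero => cases hv
  | succ t ih =>
    rw [valt_succ] at hv
    cases h : valt c ρ x t with
    | some w =>
      rw [h] at hv
      exact ih (by rw [h]; exact hv)
    | none =>
      rw [h] at hv
      exact ⟨_, evaln_sound hv⟩

theorem val_complete {F : List ℕ → ℕ →. ℕ} (hF : Mono F) {c : Code}
    (hc : ∀ ρ n, eval c (encode (ρ, n)) = F ρ n) {O : ℕ → ℕ} {M x v : ℕ}
    (hv : v ∈ F (seg O M) x) : ∃ N, val c (seg O N) x = some v := by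
  rw [← hc] at hv
  obtain ⟨k, hk⟩ := evaln_complete.1 hv
  let t := Nat.pair M k
  refine ⟨t + 1, ?_⟩
  unfold val
  rw [seg_length]
  have hMt : M ≤ t + 1 := le_trans (Nat.left_le_pair M k) (Nat.le_succ _)
  have h1 : ∃ w, valt c (seg O (t + 1)) x (t + 1) = some w := by
    rw [valt_succ]
    cases h : valt c (seg O (t + 1)) x t with
    | some w => exact ⟨w, rfl⟩
    | none =>
      refine ⟨v, ?_⟩
      have : (seg O (t + 1)).take t.unpair.1 = seg O M := by
        rw [show t.unpair.1 = M by simp [t]]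
        exact seg_take O hMt
      rw [this, show t.unpair.2 = k by simp [t]]
      exact hk
  obtain ⟨w, hw⟩ := h1
  obtain ⟨a, ha⟩ := valt_sound hw
  rw [hc] at ha
  have h2 : w ∈ F (seg O (t + 1)) x := hF _ _ _ _ (List.take_prefix _ _) ha
  have h3 : v ∈ F (seg O (t + 1)) x := hF _ _ _ _ (seg_prefix O hMt) (by rw [← hc]; exact hv)
  rw [hw, Part.mem_unique h2 h3]

/-- every monotone functional has a code -/
theorem exists_code_functional {F : List ℕ → ℕ →. ℕ} (hF : Partrec₂ F) :
    ∃ c : Code, ∀ ρ n, eval c (encode (ρ, n)) = F ρ n := by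
  obtain ⟨c, hc⟩ := Code.exists_code.1 hF
  refine ⟨c, fun ρ n => ?_⟩
  rw [hc]
  simp only [encodek, Part.coe_some, Part.bind_some]
  exact Part.map_id' (fun _ => rfl) _

end Pool.Agent.Lib.MP_f26228_lc
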